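import Pool.Agent.H32.K2.ENP
import Pool.Agent.H44.KA.Tim

/-!
# The end inside a plank

A family which lies in one plank, with a visible frame, has no more violation than its projection
to the plank.
-/

set_option autoImplicit false

namespace Pool.KA

open Finset Real
open Pool.Agent.H49.Ent Pool.Agent.H32.Dense Pool.STK

/-- **The end inside a plank.** `z` is a label, `A` a frame (with inverse `B`) which depends on the
label only, the first `c` coordinates are transversal to the plank, the last `k` ones are along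
the plank. If the label determines the transversal position up to `2 ^ (-P)`, then the violation is
at most `c (J - P)`, up to small errors. -/
def END2Stmt : Prop :=
  ∀ c k : ℕ, KP c → KP k → ∀ b : ℝ, ∀ ε > 0, ∃ θ > 0, ∃ J₀ : ℕ, ∀ J ≥ J₀, ∀ (F : Fam (c + k) J)
    (κ : Type) (z : F.Ω → κ) (A B : κ → Fin (c + k) → Fin (c + k) → ℝ),
    (∀ y i j, |A y i j| ≤ 1) → (∀ y i j, |B y i j| ≤ b) →
    (∀ y i l, ∑ j, B y i j * A y j l = if i = l then 1 else 0) →
    (F.cnd z).Tm (θ * J) → ∀ P : ℕ, P ≤ J → J ≤ 2 * P →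
    F.V J ≤ ε * J + CH F.p z (fun ω => (F.X J ω, F.W ω)) +
      CH F.p (fun ω => fl P (prj (A (z ω)) (Fin.castAdd k) (F.x ω))) (fun ω => (z ω, F.W ω)) +
      c * (((J : ℝ) - P) * Real.log 2)

/-- The same, if the label determines the transversal velocity up to `2 ^ (-P)`. -/
def END2vStmt : Prop :=
  ∀ c k : ℕ, KP k → ∀ b : ℝ, ∀ ε > 0, ∃ θ > 0, ∃ J₀ : ℕ, ∀ J ≥ J₀, ∀ (F : Fam (c + k) J)
    (κ : Type) (z : F.Ω → κ) (A B : κ → Fin (c + k) → Fin (c + k) → ℝ),
    (∀ y i j, |A y i j| ≤ 1) → (∀ y i j, |B y i j| ≤ b) →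
    (∀ y i l, ∑ j, B y i j * A y j l = if i = l then 1 else 0) →
    (F.cnd z).Tm (θ * J) → ∀ P : ℕ, P ≤ J →
    F.V J ≤ ε * J + CH F.p z (fun ω => (F.X J ω, F.W ω)) +
      CH F.p (fun ω => fl P (prj (A (z ω)) (Fin.castAdd k) (F.d ω))) (fun ω => (z ω, F.Z ω)) +
      c * (((J : ℝ) - P) * Real.log 2)

namespace END2

open ENP

/-- The projected family, at resolution `P`. -/
noncomputable def pj {m n J : ℕ} (F : Fam m J) {κ : Type} (z : F.Ω → κ)
    (A : κ → Fin m → Fin m → ℝ) (hA : ∀ y i j, |A y i j| ≤ 1) (e : Fin n → Fin m)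
    (P : ℕ) (hP : P ≤ J) : Fam n P where
  Ω := F.Ω
  ζ := κ × F.ζ
  fin := F.fin
  p := F.p
  u := fun ω i => prj (A (z ω)) e (F.u ω) i / ((m : ℝ) + 1)
  d := fun ω i => prj (A (z ω)) e (F.d ω) i / ((m : ℝ) + 1)
  T := fun ω => F.T ω / 2 ^ (J - P)
  Z := fun ω => (z ω, F.Z ω)
  isLaw := F.isLaw
  dir := by
    intro ω i
    rw [abs_div, abs_of_pos (by positivity : (0 : ℝ) < (m : ℝ) + 1),
      div_le_one (by positivity)]
    have h := prj_dist (hA (z ω)) e (x := F.d ω) (y := fun _ => 0) (r := 1)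
      (fun j => by simpa using F.dir ω j) i
    have e : prj (A (z ω)) e (fun _ => 0) i = 0 := by
      unfold prj
      simp
    rw [e, sub_zero, mul_one] at h
    linarith
  tim := fun ω => by
    rw [Nat.div_lt_iff_lt_mul (by positivity), ← pow_add]
    have h := F.tim ω
    have e : P + (J - P) = J := Nat.add_sub_cancel' hP
    rwa [e]

lemma prj_d {m n : ℕ} {A : Fin m → Fin m → ℝ} (hA : ∀ i j, |A i j| ≤ 1) (e : Fin n → Fin m)
    {d : Fin m → ℝ} (hd : ∀ i, |d i| ≤ 1) (i : Fin n) : |prj A e d i| ≤ m := by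
  have h := prj_dist hA e (x := d) (y := fun _ => 0) (r := 1) (fun j => by simpa using hd j) i
  have e : prj A e (fun _ => 0) i = 0 := by
    unfold prj
    simp
  rwa [e, sub_zero, mul_one] at h

/-- The entropy inequality for a projection, given a label. -/
lemma pj_V {m n : ℕ} (hK : KP n) : ∀ ε > 0, ∃ θ > 0, ∃ J₀ : ℕ, ∀ J ≥ J₀, ∀ (F : Fam m J)
    (κ : Type) (z : F.Ω → κ) (A : κ → Fin m → Fin m → ℝ),
    (∀ y i j, |A y i j| ≤ 1) → ∀ e : Fin n → Fin m,
    (F.cnd z).Tm (θ * J) → ∀ P : ℕ, P ≤ J → J ≤ 2 * P →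
    CH F.p (fun ω => fl P (prj (A (z ω)) e (F.d ω))) (fun ω => (z ω, F.Z ω)) ≤
      CH F.p (fun ω => fl P (prj (A (z ω)) e (F.x ω))) (fun ω => (z ω, F.W ω)) + ε * J := by
  intro ε hε
  obtain ⟨θ₀, hθ₀, J₁, hJ₁⟩ := hK (ε / 3) (by positivity)
  set C : ℝ := n * Real.log (2 * (m + 1) + 3) + n * Real.log (2 * 2 + 3) with hC
  obtain ⟨J₂, hJ₂⟩ := exists_nat_ge (3 * C / ε)
  refine ⟨min (θ₀ / 2) (ε / 3), lt_min (by positivity) (by positivity), max (2 * J₁) J₂, ?_⟩
  intro J hJ F κ z A hA e hTm P hP hP2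
  have hp := F.isLaw
  have hp0 := hp.nonneg
  have hJ1 : 2 * J₁ ≤ J := (le_max_left _ _).trans hJ
  have hJ2 : J₂ ≤ J := (le_max_right _ _).trans hJ
  have hP1 : J₁ ≤ P := by omega
  set V : F.Ω → κ × F.ζ := fun ω => (z ω, F.Z ω) with hV
  set ND : F.Ω → Fin n → ℤ := fun ω => fl P (prj (A (z ω)) e (F.d ω)) with hND
  set NX : F.Ω → Fin n → ℤ := fun ω => fl P (prj (A (z ω)) e (F.x ω)) with hNX
  set G : Fam n P := pj F z A hA e P hP with hG
  have eJ : P + (J - P) = J := Nat.add_sub_cancel' hP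
  have eJr : (P : ℝ) + ((J - P : ℕ) : ℝ) = J := by
    rw [← Nat.cast_add, eJ]
  have hTm' : ((P : ℝ) + ((J - P : ℕ) : ℝ)) * Real.log 2 - min (θ₀ / 2) (ε / 3) * J ≤
      CH F.p F.T (fun ω => (F.l ω, V ω)) := by
    rw [eJr]
    exact hTm
  -- the time
  have hTG0 := tim_tm hp F.T (J - P) P hTm'
  have hTmono : ∀ Y : F.Ω → ℕ, CH F.p Y (fun ω => (F.l ω, V ω)) ≤
      CH F.p Y (fun ω => (G.l ω, V ω)) := by
    intro Y
    refine CH_mono_cond hp0 ?_
    intro ω ω' _ _ h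
    simp only [Fam.l, hV, Prod.mk.injEq] at h
    obtain ⟨⟨h1, h2⟩, h3, h4⟩ := h
    change (((fun i => prj (A (z ω)) e (F.u ω) i / ((m : ℝ) + 1)),
      (fun i => prj (A (z ω)) e (F.d ω) i / ((m : ℝ) + 1))), (z ω, F.Z ω)) =
      (((fun i => prj (A (z ω')) e (F.u ω') i / ((m : ℝ) + 1)),
      (fun i => prj (A (z ω')) e (F.d ω') i / ((m : ℝ) + 1))), (z ω', F.Z ω'))
    rw [h1, h2, h3, h4]
  have m1 : min (θ₀ / 2) (ε / 3) * J ≤ θ₀ * P := by
    have h1 : min (θ₀ / 2) (ε / 3) * J ≤ θ₀ / 2 * J :=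
      mul_le_mul_of_nonneg_right (min_le_left _ _) (by positivity)
    have h2 : (J : ℝ) ≤ 2 * P := by exact_mod_cast hP2
    nlinarith
  have m2 : min (θ₀ / 2) (ε / 3) * J ≤ ε / 3 * J :=
    mul_le_mul_of_nonneg_right (min_le_right _ _) (by positivity)
  have hGTm : G.Tm (θ₀ * P) := by
    unfold Fam.Tm
    have h1 := hTmono (fun ω => F.T ω / 2 ^ (J - P))
    have h2 : CH G.p G.T (fun ω => (G.l ω, G.Z ω)) =
      CH F.p (fun ω => F.T ω / 2 ^ (J - P)) (fun ω => (G.l ω, V ω)) := rfl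
    rw [h2]
    linarith
  have hGV := hJ₁ P hP1 G hGTm
  have hGV' : CH F.p (G.D P) V - CH F.p (G.X P) (fun ω => (F.T ω / 2 ^ (J - P), V ω)) ≤
      ε / 3 * P := by
    have e : G.V P = CH F.p (G.D P) V -
        CH F.p (G.X P) (fun ω => (F.T ω / 2 ^ (J - P), V ω)) := by
      unfold Fam.V
      rw [sub_self, zero_mul, mul_zero, sub_zero]
      rfl
    rwa [e] at hGV
  have m0 : (0 : ℝ) < (m : ℝ) + 1 := by positivity
  -- the directions
  have c1 : CH F.p ND V ≤ CH F.p (G.D P) V + n * Real.log (2 * (m + 1) + 3) := by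
    have h1 := CH_le_add hp0 ND (G.D P) V
    have h2 := CH_fl hp P (fun ω => prj (A (z ω)) e (F.d ω))
      (fun ω => (G.D P ω, V ω)) (m + 1) (by
        intro ω ω' _ _ h i
        simp only [hV, Prod.mk.injEq] at h
        have h3 := of_fl_eq h.1 i
        have e1 : ∀ w, prj (A (z w)) e (F.d w) i = (m + 1) * G.d w i := by
          intro w
          change _ = ((m : ℝ) + 1) * (prj (A (z w)) e (F.d w) i / ((m : ℝ) + 1))
          field_simp
        rw [e1, e1, ← mul_sub, abs_mul, abs_of_pos m0, div_eq_mul_one_div]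
        exact mul_le_mul_of_nonneg_left h3 m0.le)
    linarith
  -- the positions, at the rounded time
  have c3 : CH F.p (G.X P) (fun ω => (F.T ω / 2 ^ (J - P), V ω)) ≤
      CH F.p (G.X P) (fun ω => (F.T ω, V ω)) + min (θ₀ / 2) (ε / 3) * J := by
    refine tim_tr hp F.T (J - P) P (L := fun ω => (G.l ω, V ω)) ?_ ?_ ?_ ?_
    · intro ω
      rw [eJ]
      exact F.tim ω
    · exact hTm'.trans (hTmono F.T)
    · intro ω ω' _ _ h
      exact (Prod.ext_iff.mp h).2
    · intro ω ω' _ _ h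
      simp only [Prod.mk.injEq] at h
      obtain ⟨h1, h2, _⟩ := h
      have h3 : G.x ω = G.x ω' := by
        funext i
        have hu : G.u ω = G.u ω' := (Prod.ext_iff.mp h2).1
        have hd : G.d ω = G.d ω' := (Prod.ext_iff.mp h2).2
        have ht : G.t ω = G.t ω' := by
          change (((F.T ω / 2 ^ (J - P) : ℕ) : ℝ)) / 2 ^ P =
            (((F.T ω' / 2 ^ (J - P) : ℕ) : ℝ)) / 2 ^ P
          rw [h1]
        unfold Fam.x
        rw [hu, hd, ht]
      unfold Fam.X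
      rw [h3]
  have hGx : ∀ ω i, G.x ω i = (prj (A (z ω)) e (F.x ω) i -
      (F.t ω - G.t ω) * prj (A (z ω)) e (F.d ω) i) / (m + 1) := by
    intro ω i
    have h1 := congrFun (prj_line (A (z ω)) e (F.u ω) (F.d ω) (F.t ω)) i
    have h2 : prj (A (z ω)) e (F.x ω) i =
      prj (A (z ω)) e (fun i => F.u ω i + F.t ω * F.d ω i) i := rfl
    rw [h2, h1]
    change prj (A (z ω)) e (F.u ω) i / ((m : ℝ) + 1) +
      G.t ω * (prj (A (z ω)) e (F.d ω) i / ((m : ℝ) + 1)) = _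
    ring
  have c2 : CH F.p (G.X P) (fun ω => (F.T ω, V ω)) ≤
      CH F.p NX (fun ω => (F.T ω, V ω)) + n * Real.log (2 * 2 + 3) := by
    have h1 := CH_le_add hp0 (G.X P) NX (fun ω => (F.T ω, V ω))
    have h2 := CH_fl hp P G.x (fun ω => (NX ω, (F.T ω, V ω))) 2 (by
        intro ω ω' _ _ h i
        simp only [hV, Prod.mk.injEq] at h
        obtain ⟨hN, hT, hz, _⟩ := h
        have h3 := of_fl_eq hN i
        have ht : F.t ω - G.t ω = F.t ω' - G.t ω' := by
          change (F.T ω : ℝ) / 2 ^ J - ((F.T ω / 2 ^ (J - P) : ℕ) : ℝ) / 2 ^ P =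
            (F.T ω' : ℝ) / 2 ^ J - ((F.T ω' / 2 ^ (J - P) : ℕ) : ℝ) / 2 ^ P
          rw [hT]
        have hδ0 : 0 ≤ F.t ω - G.t ω ∧ F.t ω - G.t ω ≤ 1 / 2 ^ P := by
          change 0 ≤ (F.T ω : ℝ) / 2 ^ J - ((F.T ω / 2 ^ (J - P) : ℕ) : ℝ) / 2 ^ P ∧
            (F.T ω : ℝ) / 2 ^ J - ((F.T ω / 2 ^ (J - P) : ℕ) : ℝ) / 2 ^ P ≤ 1 / 2 ^ P
          have hq := Nat.div_add_mod (F.T ω) (2 ^ (J - P))
          have hr := Nat.mod_lt (F.T ω) (show 0 < 2 ^ (J - P) by positivity)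
          have e2 : (2 : ℝ) ^ J = 2 ^ P * 2 ^ (J - P) := by rw [← pow_add, eJ]
          set a := F.T ω / 2 ^ (J - P)
          set r := F.T ω % 2 ^ (J - P)
          have hq' : (F.T ω : ℝ) = 2 ^ (J - P) * a + r := by exact_mod_cast hq.symm
          have hr' : (r : ℝ) ≤ 2 ^ (J - P) := by exact_mod_cast hr.le
          have e3 : (F.T ω : ℝ) / 2 ^ J - (a : ℝ) / 2 ^ P = (r : ℝ) / 2 ^ (J - P) / 2 ^ P := by
            rw [hq', e2]
            field_simp
            ring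
          rw [e3]
          refine ⟨by positivity, ?_⟩
          refine div_le_div_of_nonneg_right ?_ (by positivity)
          rwa [div_le_one (by positivity)]
        have hd1 := prj_d (hA (z ω)) e (F.dir ω) i
        have hd2 := prj_d (hA (z ω')) e (F.dir ω') i
        rw [hGx ω i, hGx ω' i, ← sub_div, abs_div, abs_of_pos m0, div_le_iff₀ m0]
        have e4 : prj (A (z ω)) e (F.x ω) i - (F.t ω - G.t ω) * prj (A (z ω)) e (F.d ω) i -
            (prj (A (z ω')) e (F.x ω') i - (F.t ω' - G.t ω') * prj (A (z ω')) e (F.d ω') i) =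
            (prj (A (z ω)) e (F.x ω) i - prj (A (z ω')) e (F.x ω') i) -
            (F.t ω - G.t ω) * (prj (A (z ω)) e (F.d ω) i - prj (A (z ω')) e (F.d ω') i) := by
          rw [← ht]
          ring
        rw [e4]
        have h5 : |(F.t ω - G.t ω) * (prj (A (z ω)) e (F.d ω) i - prj (A (z ω')) e (F.d ω') i)| ≤
            1 / 2 ^ P * (2 * m) := by
          rw [abs_mul, abs_of_nonneg hδ0.1]
          refine mul_le_mul hδ0.2 ?_ (abs_nonneg _) (by positivity)
          refine (abs_sub _ _).trans ?_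
          linarith
        refine (abs_sub _ _).trans ?_
        have h6 : (2 : ℝ) / 2 ^ P * ((m : ℝ) + 1) = 1 / 2 ^ P + 1 / 2 ^ P * (2 * m) + 1 / 2 ^ P := by
          ring
        rw [h6]
        have h7 : (0 : ℝ) < 1 / 2 ^ P := by positivity
        linarith)
    have h3 : CH F.p (G.X P) (fun ω => (NX ω, (F.T ω, V ω))) =
      CH F.p (fun ω => fl P (G.x ω)) (fun ω => (NX ω, (F.T ω, V ω))) := rfl
    rw [h3] at h1
    linarith
  have e1 : CH F.p NX (fun ω => (F.T ω, V ω)) = CH F.p NX (fun ω => (z ω, F.W ω)) := by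
    refine CH_congr hp0 ?_ ?_ ?_ ?_
    · intro ω ω' _ _ h
      exact (Prod.ext_iff.mp h).1
    · intro ω ω' _ _ h
      exact (Prod.ext_iff.mp h).1
    · intro ω ω' _ _ h
      simp only [hV, Fam.W, Prod.mk.injEq] at h ⊢
      tauto
    · intro ω ω' _ _ h
      simp only [hV, Fam.W, Prod.mk.injEq] at h ⊢
      tauto
  have hCJ : C ≤ ε / 3 * J := by
    have h1 : 3 * C / ε ≤ J := hJ₂.trans (by exact_mod_cast hJ2)
    rw [div_le_iff₀ hε] at h1
    linarith
  have hPJ : ε / 3 * P ≤ ε / 3 * J :=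
    mul_le_mul_of_nonneg_left (by exact_mod_cast hP) (by positivity)
  linarith

end END2

open ENP END2

/-- **The end inside a plank**, velocity form. -/
theorem end2v_thm : END2vStmt := by
  intro c k hK b ε hε
  obtain ⟨θ₀, hθ₀, J₁, hJ₁⟩ := pj_V (m := c + k) hK (ε / 3) (by positivity)
  set m : ℕ := c + k with hm
  set C : ℝ := m * Real.log (2 * (m * (b * 1)) + 3) + c * Real.log 5 +
    k * Real.log (2 * m + 3) with hC
  obtain ⟨J₂, hJ₂⟩ := exists_nat_ge (3 * C / ε)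
  refine ⟨min θ₀ (ε / 3), lt_min hθ₀ (by positivity), max J₁ J₂, ?_⟩
  intro J hJ F κ z A B hA hB hBA hTm P hP
  have hp := F.isLaw
  have hp0 := hp.nonneg
  have hJ1 : J₁ ≤ J := (le_max_left _ _).trans hJ
  have hJ2 : J₂ ≤ J := (le_max_right _ _).trans hJ
  set WX : F.Ω → Fin k → ℤ := fun ω => fl J (prj (A (z ω)) (Fin.natAdd c) (F.x ω)) with hWX
  set ND : F.Ω → Fin c → ℤ := fun ω => fl J (prj (A (z ω)) (Fin.castAdd k) (F.d ω)) with hND
  set NP : F.Ω → Fin c → ℤ := fun ω => fl P (prj (A (z ω)) (Fin.castAdd k) (F.d ω)) with hNP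
  set WD : F.Ω → Fin k → ℤ := fun ω => fl J (prj (A (z ω)) (Fin.natAdd c) (F.d ω)) with hWD
  set V : F.Ω → κ × F.ζ := fun ω => (z ω, F.Z ω) with hV
  have hmin1 : min θ₀ (ε / 3) * J ≤ θ₀ * J :=
    mul_le_mul_of_nonneg_right (min_le_left _ _) (by positivity)
  have hmin2 : min θ₀ (ε / 3) * J ≤ ε / 3 * J :=
    mul_le_mul_of_nonneg_right (min_le_right _ _) (by positivity)
  have hTm' : (J : ℝ) * Real.log 2 - min θ₀ (ε / 3) * J ≤
      CH F.p F.T (fun ω => (F.l ω, (z ω, F.Z ω))) := hTm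
  have hTm0 : (F.cnd z).Tm (θ₀ * J) := by
    change (J : ℝ) * Real.log 2 - θ₀ * J ≤ CH F.p F.T (fun ω => (F.l ω, (z ω, F.Z ω)))
    linarith
  have hT0 : CH F.p F.T (fun ω => (F.l ω, (z ω, F.Z ω))) ≤ CH F.p F.T V := by
    refine CH_mono_cond hp0 ?_
    intro ω ω' _ _ h
    exact (Prod.ext_iff.mp h).2
  have hT1 : CH F.p F.T F.Z ≤ J * Real.log 2 := tim_le hp F.T J F.tim F.Z
  have key := hJ₁ J hJ1 F κ z A hA (Fin.natAdd c) hTm0 J le_rfl (by omega)
  change CH F.p WD V ≤ CH F.p WX (fun ω => (z ω, F.W ω)) + ε / 3 * J at key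
  -- the directions
  have d1 : CH F.p (F.D J) V ≤ CH F.p WD V + CH F.p NP V +
      (c * (((J : ℝ) - P) * Real.log 2) + c * Real.log 5) +
      m * Real.log (2 * (m * (b * 1)) + 3) := by
    have h1 := CH_le_add hp0 (F.D J) (fun ω => (ND ω, WD ω)) V
    have h2 := CH_chain hp0 ND WD V
    have h3 := CH_fl hp J F.d (fun ω => ((ND ω, WD ω), V ω)) (m * (b * 1)) (by
        intro ω ω' _ _ h i
        simp only [hV, Prod.mk.injEq] at h
        obtain ⟨⟨hb, ha⟩, hz, _⟩ := h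
        have h4 := of_prj (hB (z ω)) (hBA (z ω)) (x := F.d ω) (y := F.d ω') (r := 1 / 2 ^ J)
          (fun i => by
            refine of_fl_eq (J := J) ?_ i
            rw [hND] at hb
            simp only at hb
            rw [hb, hz])
          (fun i => by
            refine of_fl_eq (J := J) ?_ i
            rw [hWD] at ha
            simp only at ha
            rw [ha, hz]) i
        refine h4.trans (le_of_eq ?_)
        ring)
    have h4 : CH F.p ND (fun ω => (WD ω, V ω)) ≤ CH F.p ND V := by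
      refine CH_mono_cond hp0 ?_
      intro ω ω' _ _ h
      exact (Prod.ext_iff.mp h).2
    have h5 := tim_dig hp (fun ω => prj (A (z ω)) (Fin.castAdd k) (F.d ω)) P (J - P) V
    have eJ : P + (J - P) = J := Nat.add_sub_cancel' hP
    have eJr : ((J - P : ℕ) : ℝ) = (J : ℝ) - P := by
      push_cast [hP]
      ring
    rw [eJ, eJr] at h5
    have h7 : CH F.p (F.D J) (fun ω => ((ND ω, WD ω), V ω)) =
      CH F.p (fun ω => fl J (F.d ω)) (fun ω => ((ND ω, WD ω), V ω)) := rfl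
    rw [h7] at h1
    change CH F.p ND V ≤ CH F.p NP V + c * (((J : ℝ) - P) * Real.log 2) + c * Real.log 5 at h5
    linarith
  -- the positions
  have x1 : CH F.p WX (fun ω => (z ω, F.W ω)) ≤
      CH F.p (F.X J) (fun ω => (z ω, F.W ω)) + k * Real.log (2 * m + 3) := by
    have h2 := CH_le_add hp0 WX (F.X J) (fun ω => (z ω, F.W ω))
    have h3 := CH_fl hp J (fun ω => prj (A (z ω)) (Fin.natAdd c) (F.x ω))
      (fun ω => (F.X J ω, (z ω, F.W ω))) m (by
        intro ω ω' _ _ h i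
        simp only [Prod.mk.injEq] at h
        obtain ⟨hX, hz, _⟩ := h
        rw [← hz]
        have h5 := prj_dist (hA (z ω)) (Fin.natAdd c) (fun j => of_fl_eq hX j) i
        rwa [← div_eq_mul_one_div] at h5)
    change CH F.p WX (fun ω => (F.X J ω, (z ω, F.W ω))) ≤ _ at h3
    linarith
  -- the label
  have z1 := CH_le_add hp0 (F.D J) z F.Z
  have z2 := CH_bayes hp0 z F.T F.Z
  have z3 := CH_chain hp0 (F.X J) z F.W
  have z4 := CH_chain hp0 z (F.X J) F.W
  have z5 : CH F.p (fun ω => (F.X J ω, z ω)) F.W = CH F.p (fun ω => (z ω, F.X J ω)) F.W := by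
    refine CH_congr hp0 ?_ ?_ (fun _ _ _ _ h => h) (fun _ _ _ _ h => h)
    · intro ω ω' _ _ h
      simp only [Prod.mk.injEq] at h ⊢
      exact ⟨h.1.2, h.1.1⟩
    · intro ω ω' _ _ h
      simp only [Prod.mk.injEq] at h ⊢
      exact ⟨h.1.2, h.1.1⟩
  have hCJ : C ≤ ε / 3 * J := by
    have h1 : 3 * C / ε ≤ J := hJ₂.trans (by exact_mod_cast hJ2)
    rw [div_le_iff₀ hε] at h1
    linarith
  have hVJ : F.V J = CH F.p (F.D J) F.Z - CH F.p (F.X J) F.W := by
    unfold Fam.V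
    rw [sub_self, zero_mul, mul_zero, sub_zero]
  have z2' : CH F.p z F.W = CH F.p z F.Z + CH F.p F.T V - CH F.p F.T F.Z := z2
  change F.V J ≤ ε * J + CH F.p z (fun ω => (F.X J ω, F.W ω)) + CH F.p NP V +
    c * (((J : ℝ) - P) * Real.log 2)
  change C = _ at hC
  linarith

/-- **The end inside a plank**, position form. -/
theorem end2_thm : END2Stmt := by
  intro c k hc hk b ε hε
  obtain ⟨θ₁, hθ₁, J₁, hJ₁⟩ := end2v_thm c k hk b (ε / 2) (by positivity)
  obtain ⟨θ₂, hθ₂, J₂, hJ₂⟩ := pj_V (m := c + k) hc (ε / 2) (by positivity)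
  refine ⟨min θ₁ θ₂, lt_min hθ₁ hθ₂, max J₁ J₂, ?_⟩
  intro J hJ F κ z A B hA hB hBA hTm P hP hP2
  have hJ1 : J₁ ≤ J := (le_max_left _ _).trans hJ
  have hJ2 : J₂ ≤ J := (le_max_right _ _).trans hJ
  have hTm' : (J : ℝ) * Real.log 2 - min θ₁ θ₂ * J ≤
      CH F.p F.T (fun ω => (F.l ω, (z ω, F.Z ω))) := hTm
  have m1 : min θ₁ θ₂ * (J : ℝ) ≤ θ₁ * J :=
    mul_le_mul_of_nonneg_right (min_le_left _ _) (by positivity)
  have m2 : min θ₁ θ₂ * (J : ℝ) ≤ θ₂ * J :=
    mul_le_mul_of_nonneg_right (min_le_right _ _) (by positivity)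
  have t1 : (F.cnd z).Tm (θ₁ * J) := by
    change (J : ℝ) * Real.log 2 - θ₁ * J ≤ CH F.p F.T (fun ω => (F.l ω, (z ω, F.Z ω)))
    linarith
  have t2 : (F.cnd z).Tm (θ₂ * J) := by
    change (J : ℝ) * Real.log 2 - θ₂ * J ≤ CH F.p F.T (fun ω => (F.l ω, (z ω, F.Z ω)))
    linarith
  have h1 := hJ₁ J hJ1 F κ z A B hA hB hBA t1 P hP
  have h2 := hJ₂ J hJ2 F κ z A hA (Fin.castAdd k) t2 P hP hP2
  linarith

end Pool.KA
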