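import Pool.Agent.H44.K2.ACTS

/-!
# The base velocity has linear entropy given the exact point
-/

set_option autoImplicit false

namespace Pool.K2S

open Finset Real
open Pool.Agent.H49.Ent Pool.Agent.H32.Dense Pool.STK Pool.KA Pool.KSAT

open Classical in
/-- The directions, given the point and the base velocity, with an exceptional set of points with
thin fans. -/
theorem CH_D_base {m J : ℕ} (F : Fam m J) {A : F.Ω → Prop}
    (hlaw : IsLaw (Pool.Agent.H49.Ent.cond F.p A True)) {k h k₀ : ℕ} {i₀ : Fin m}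
    (h1 : k₀ + 4 ≤ h) (h2 : k₀ + 4 ≤ k) (hLb : LineAt i₀ (1 / 2 ^ h) (Fam.pt F) F.d A)
    (hLn : LineU i₀ (1 / 2 ^ k) (Fam.pt F) F.d A) :
    CH (Pool.Agent.H49.Ent.cond F.p A True) (F.D k)
      (fun ω => (⌊(2 : ℝ) ^ k * F.d ω i₀⌋, Fam.pt F ω)) ≤
      m * (Real.log 11 + Pe (Pool.Agent.H49.Ent.cond F.p A True)
        (Thin (1 / 2 ^ k₀) (Fam.pt F) F.d A) * ((k + 3) * Real.log 2)) := by
  set Q := Pool.Agent.H49.Ent.cond F.p A True with hQ
  have hp0 := hlaw.nonneg
  have hA : ∀ ω, 0 < Q ω → A ω := by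
    intro ω hω
    have := ((cond_pos_iff F.isLaw.nonneg A True ω).1 hω).2
    rw [this]; trivial
  obtain ⟨e, n, hen⟩ := hLb
  obtain ⟨e', n', hen'⟩ := hLn
  set s : ℝ := 1 / 2 ^ k₀ with hs
  have hs0 : 0 < s := by rw [hs]; positivity
  set Th := Thin s (Fam.pt F) F.d A with hTh
  have hpow : ∀ j : ℕ, k₀ + 4 ≤ j → (1 : ℝ) / 2 ^ j ≤ s / 16 := by
    intro j hj
    obtain ⟨i, rfl⟩ := Nat.exists_eq_add_of_le hj
    rw [hs, pow_add, pow_add, div_div]
    refine one_div_le_one_div_of_le (by positivity) ?_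
    have : (1 : ℝ) ≤ 2 ^ i := one_le_pow₀ (by norm_num)
    have h3 : (0 : ℝ) < 2 ^ k₀ := by positivity
    nlinarith only [this, h3]
  have r1 := hpow h h1
  have r2 := hpow k h2
  -- bounded slopes
  have hsp := spread_of_not_thin s (Fam.pt F) F.d A
  have hsub : Sub (fun ω => A ω ∧ ¬ Th ω) A := fun ω hω => hω.1
  have hI := (hen.sub hsub).spreadI hsp
  have hbd : ∀ ω, A ω → ¬ Th ω → ∀ j, |e' (Fam.pt F ω) j| ≤ 2 := by
    intro ω hω hT j
    refine OnL.bound (hen.sub hsub) (OnL.sub hen' hsub) hI (by linarith only [hs0, r1]) (by linarith only [hs0, r1, r2]) ω ⟨hω, hT⟩ j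
  have hThpt : ∀ ω ω', Fam.pt F ω = Fam.pt F ω' → (Th ω ↔ Th ω') := by
    intro ω ω' h
    rw [hTh]
    unfold Thin
    rw [h]
  -- the bound
  exact by
   set L : F.Ω → ℝ := fun ω => if Th ω then 2 ^ (k + 1) else 5 with hL
   have key := CH_le_vec hp0 hlaw.sum_one (F.D k)
     (fun ω => (⌊(2 : ℝ) ^ k * F.d ω i₀⌋, Fam.pt F ω)) L ?_
   · refine key.trans ?_
     refine mul_le_mul_of_nonneg_left ?_ (Nat.cast_nonneg m)
     have h3 : Pe Q Th * ((k + 3) * Real.log 2) =
         Ex Q (fun ω => if Th ω then (k + 3) * Real.log 2 else 0) := by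
       rw [Pe_eq]
       unfold Ex
       rw [Finset.sum_mul]
       refine Finset.sum_congr rfl fun ω _ => ?_
       simp only
       by_cases h : Th ω
       · rw [if_pos h, if_pos h]
       · rw [if_neg h, if_neg h]
         ring
     rw [h3, ← Ex_const hlaw.sum_one (Real.log 11), ← Ex_add]
     refine Ex_mono hp0 fun ω _ => ?_
     have hl11 : 0 ≤ Real.log 11 := Real.log_nonneg (by norm_num)
     have hE : Ex Q (fun _ => Real.log 11) = Real.log 11 := Ex_const hlaw.sum_one _
     by_cases h : Th ω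
     · rw [hL]
       simp only
       rw [if_pos h, if_pos h]
       have h4 : (2 : ℝ) * 2 ^ (k + 1) + 1 ≤ 2 ^ (k + 3) := by
         have : (1 : ℝ) ≤ 2 ^ k := one_le_pow₀ (by norm_num)
         rw [pow_add, pow_add]
         norm_num
         linarith only [this]
       have h5 : Real.log (2 * 2 ^ (k + 1) + 1) ≤ (k + 3) * Real.log 2 := by
         refine (Real.log_le_log (by positivity) h4).trans (le_of_eq ?_)
         rw [Real.log_pow]
         push_cast
         ring
       linarith only [hl11, h5]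
     · rw [hL]
       simp only
       rw [if_neg h, if_neg h]
       have : (2 : ℝ) * 5 + 1 = 11 := by norm_num
       rw [this, add_zero]
   · intro ω ω' hω hω' hW j
     have e1 := Prod.ext_iff.mp hW
     have e2 : ⌊(2 : ℝ) ^ k * F.d ω i₀⌋ = ⌊(2 : ℝ) ^ k * F.d ω' i₀⌋ := e1.1
     have e3 : Fam.pt F ω = Fam.pt F ω' := e1.2
     have hpk : (0 : ℝ) < 2 ^ k := by positivity
     change |((⌊(2 : ℝ) ^ k * F.d ω j⌋ - ⌊(2 : ℝ) ^ k * F.d ω' j⌋ : ℤ) : ℝ)| ≤
       (if Th ω then 2 ^ (k + 1) else 5)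
     by_cases h : Th ω
     · rw [if_pos h]
       have h3 := h ω ω' (hA ω hω) (hA ω' hω') rfl e3.symm j
       have h4 : s ≤ 1 := by
         rw [hs, div_le_one (by positivity)]
         exact one_le_pow₀ (by norm_num)
       have h5 : |(2 : ℝ) ^ k * F.d ω j - 2 ^ k * F.d ω' j| ≤ 2 ^ k := by
         rw [← mul_sub, abs_mul, abs_of_pos hpk]
         calc (2 : ℝ) ^ k * |F.d ω j - F.d ω' j| ≤ 2 ^ k * 1 :=
               mul_le_mul_of_nonneg_left (h3.trans h4) hpk.le
           _ = _ := mul_one _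
       refine (flo_le h5).trans ?_
       have : (1 : ℝ) ≤ 2 ^ k := one_le_pow₀ (by norm_num)
       rw [pow_succ]
       linarith only [this]
     · rw [if_neg h]
       have h3 := hbd ω (hA ω hω) h j
       have h4 := hen' ω (hA ω hω) j
       have h5 := hen' ω' (hA ω' hω') j
       rw [← e3] at h5
       have h6 := of_flo e2
       have h7 : |(2 : ℝ) ^ k * F.d ω j - 2 ^ k * F.d ω' j| ≤ 4 := by
         have e4 : (2 : ℝ) ^ k * F.d ω j - 2 ^ k * F.d ω' j =
             2 ^ k * (F.d ω j - e' (Fam.pt F ω) j * F.d ω i₀ - n' (Fam.pt F ω) j) -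
             2 ^ k * (F.d ω' j - e' (Fam.pt F ω) j * F.d ω' i₀ - n' (Fam.pt F ω) j) +
             e' (Fam.pt F ω) j * (2 ^ k * F.d ω i₀ - 2 ^ k * F.d ω' i₀) := by ring
         have b1 : |(2 : ℝ) ^ k * (F.d ω j - e' (Fam.pt F ω) j * F.d ω i₀ -
             n' (Fam.pt F ω) j)| ≤ 1 := by
           rw [abs_mul, abs_of_pos hpk]
           calc _ ≤ 2 ^ k * (1 / 2 ^ k : ℝ) := mul_le_mul_of_nonneg_left h4 hpk.le
             _ = 1 := by field_simp
         have b2 : |(2 : ℝ) ^ k * (F.d ω' j - e' (Fam.pt F ω) j * F.d ω' i₀ -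
             n' (Fam.pt F ω) j)| ≤ 1 := by
           rw [abs_mul, abs_of_pos hpk]
           calc _ ≤ 2 ^ k * (1 / 2 ^ k : ℝ) := mul_le_mul_of_nonneg_left h5 hpk.le
             _ = 1 := by field_simp
         have b3 : |e' (Fam.pt F ω) j * ((2 : ℝ) ^ k * F.d ω i₀ - 2 ^ k * F.d ω' i₀)| ≤ 2 := by
           rw [abs_mul]
           calc _ ≤ 2 * 1 := mul_le_mul h3 h6 (abs_nonneg _) (by norm_num)
             _ = 2 := by norm_num
         rw [e4]
         rw [abs_le] at b1 b2 b3 ⊢
         constructor <;> linarith only [b1, b2, b3, b1.1, b1.2, b2.1, b2.2, b3.1, b3.2]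
       exact (flo_le h7).trans (by norm_num)

/-- A fan in small balls has no entropy. -/
theorem CH_D_ball {m J : ℕ} (F : Fam m J) {A : F.Ω → Prop}
    (hlaw : IsLaw (Pool.Agent.H49.Ent.cond F.p A True)) {k : ℕ}
    (hB : Ball (1 / 2 ^ k) (Fam.pt F) F.d A) :
    CH (Pool.Agent.H49.Ent.cond F.p A True) (F.D k) (Fam.pt F) ≤ m * Real.log 7 := by
  obtain ⟨v, hv⟩ := hB
  have key := Lab.CH_fin_const hlaw (F.D k) (Fam.pt F) (c := 3) ?_
  · refine key.trans (le_of_eq ?_)
    norm_num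
  · intro ω ω' hω hω' hW j
    have hA : A ω := by
      have := ((cond_pos_iff F.isLaw.nonneg A True ω).1 hω).2
      rw [this]; trivial
    have hA' : A ω' := by
      have := ((cond_pos_iff F.isLaw.nonneg A True ω').1 hω').2
      rw [this]; trivial
    have k1 := hv ω hA j
    have k2 := hv ω' hA' j
    rw [← hW] at k2
    have hp : (0 : ℝ) < 2 ^ k := by positivity
    have k3 : |(2 : ℝ) ^ k * F.d ω j - 2 ^ k * F.d ω' j| ≤ 2 := by
      rw [← mul_sub, abs_mul, abs_of_pos hp]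
      have k4 : |F.d ω j - F.d ω' j| ≤ 2 * (1 / 2 ^ k) := by
        rw [abs_le] at k1 k2 ⊢
        constructor <;> linarith only [k1, k2, k1.1, k1.2, k2.1, k2.2]
      calc (2 : ℝ) ^ k * |F.d ω j - F.d ω' j| ≤ 2 ^ k * (2 * (1 / 2 ^ k)) :=
            mul_le_mul_of_nonneg_left k4 hp.le
        _ = 2 := by field_simp
    exact (flo_le k3).trans (by norm_num)

theorem act1_thm : ACT1Stmt := by
  classical
  intro a R ha hR hU
  have ha0 : 0 < a := by linarith
  have hl2 : 0 < Real.log 2 := Real.log_pos (by norm_num)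
  have hl7 : 0 < Real.log 7 := Real.log_pos (by norm_num)
  have hl11 : 0 < Real.log 11 := Real.log_pos (by norm_num)
  refine ⟨R / (4 * a), by positivity, fun x h₁ hx hh₁ => ?_⟩
  obtain ⟨x₀, hx₀⟩ : ∃ x₀, x₀ = min (min x h₁ / 2) (1 / 2) := ⟨_, rfl⟩
  have hx₀0 : 0 < x₀ := by
    rw [hx₀]
    exact lt_min (by have := lt_min hx hh₁; linarith only [this]) (by norm_num)
  have hx₀x : x₀ ≤ x / 2 := by
    rw [hx₀]
    exact (min_le_left _ _).trans (by have := min_le_left x h₁; linarith only [this])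
  have hx₀h : x₀ ≤ h₁ / 2 := by
    rw [hx₀]
    exact (min_le_left _ _).trans (by have := min_le_right x h₁; linarith only [this])
  have hx₀1 : x₀ ≤ 1 / 2 := by rw [hx₀]; exact min_le_right _ _
  obtain ⟨η, hη⟩ : ∃ η, η = R * x₀ / (8 * a) := ⟨_, rfl⟩
  have hη0 : 0 < η := by rw [hη]; positivity
  refine Claim.one ⟨1, fun J F _ => Ball (1 / 2 ^ ⌊x₀ * J⌋₊) (Fam.pt F) F.d,
    fun _ _ _ => Ball.hered _ _ _⟩ fun κ hκ => ?_
  obtain ⟨τ, hτ, J₁, htail⟩ := act_tail 2 ha.le hU hη0
  obtain ⟨J₂, hJ₂⟩ := exists_nat_gt (8 / κ ^ 2 + 10 / x₀ +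
    8 * a * (R / a + 2 * Real.log 11 + 4) / (R * x₀) + 3)
  refine ⟨τ, hτ, max J₁ J₂, fun J hJ F A hS hSb i₀ hLb q hqJ hxq hLn => ?_⟩
  have hJ1 : J₁ ≤ J := (le_max_left _ _).trans hJ
  have hJ2 : J₂ ≤ J := (le_max_right _ _).trans hJ
  have hJr : 8 / κ ^ 2 + 10 / x₀ + 8 * a * (R / a + 2 * Real.log 11 + 4) / (R * x₀) + 3 < J :=
    hJ₂.trans_le (by exact_mod_cast hJ2)
  exact by
   have t1 : 0 < 8 / κ ^ 2 := by positivity
   have t2 : 0 < 10 / x₀ := by positivity
   have t3 : 0 < 8 * a * (R / a + 2 * Real.log 11 + 4) / (R * x₀) := by positivity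
   have hJ3 : (3 : ℝ) ≤ J := by linarith only [hJr, t1, t2, t3]
   have hJpos : (0 : ℝ) < J := by linarith only [hx₀0, hx₀1, hJr, t1, t2, t3]
   have hJκ : 8 ≤ κ ^ 2 * J := by
     have : 8 / κ ^ 2 ≤ J := by linarith only [hx₀0, hx₀1, hJr, t2, t3]
     rw [div_le_iff₀ (by positivity)] at this
     linarith only [this]
   have hJx : 10 ≤ x₀ * J := by
     have : 10 / x₀ ≤ J := by linarith only [hx₀0, hx₀1, hJr, t1, t3]
     rw [div_le_iff₀ hx₀0] at this
     linarith only [this]
   have hJC : R / a + 2 * Real.log 11 + 4 ≤ R * x₀ / (8 * a) * J := by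
     have : 8 * a * (R / a + 2 * Real.log 11 + 4) / (R * x₀) ≤ J := by linarith only [hx₀0, hx₀1, hJr, t1, t2]
     rw [div_le_iff₀ (by positivity)] at this
     rw [div_mul_eq_mul_div, le_div_iff₀ (by positivity)]
     linarith only [this]
   obtain ⟨hlaw, -, -, -⟩ := hS.res ha.le hτ.le
   have hp0 := hlaw.nonneg
   have hPA : 0 < Pe F.p A := lt_of_lt_of_le (Real.exp_pos _) hS.2.2.2
   -- the spread
   obtain ⟨k₀, hk₀⟩ : ∃ k₀, k₀ = ⌊x₀ * J⌋₊ := ⟨_, rfl⟩
   have hk1 : (k₀ : ℝ) ≤ x₀ * J := by rw [hk₀]; exact Nat.floor_le (by positivity)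
   have hk2 : x₀ * J < k₀ + 1 := by rw [hk₀]; exact Nat.lt_floor_add_one _
   have hk3 : 2 * k₀ ≤ J := by
     have : 2 * (k₀ : ℝ) ≤ J := by
       have : x₀ * J ≤ 1 / 2 * J := mul_le_mul_of_nonneg_right hx₀1 hJpos.le
       linarith only [hk1, this]
     exact_mod_cast this
   exact by
    have hkq : k₀ + 4 ≤ q := by
      have : (k₀ : ℝ) + 4 ≤ q := by
        have : x₀ * J ≤ x / 2 * J := mul_le_mul_of_nonneg_right hx₀x hJpos.le
        linarith only [hx₀0, hx₀1, hxq, hJx, hk1, this]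
      exact_mod_cast this
    have hkh : k₀ + 4 ≤ ⌊h₁ * J⌋₊ := by
      refine Nat.le_floor ?_
      have : x₀ * J ≤ h₁ / 2 * J := mul_le_mul_of_nonneg_right hx₀h hJpos.le
      push_cast
      linarith only [hx₀0, hx₀1, hJx, hk1, this]
    have hSb0 := hSb 0
    simp only at hSb0
    rw [← hk₀] at hSb0
    have hnB : ¬ Ball (1 / 2 ^ k₀) (Fam.pt F) F.d A := by
      intro hB
      have h1 := CH_D_ball F hlaw hB
      have h2 := htail J hJ1 F A hS k₀ hk3
      have h3 : CH (Pool.Agent.H49.Ent.cond F.p A True) (F.D k₀)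
        (fun ω => (F.X J ω, F.W ω)) ≤ ((2 : ℕ) : ℝ) * Real.log 7 := h1
      have h4 : R / a * (x₀ * J - 1) ≤ R / a * k₀ :=
        mul_le_mul_of_nonneg_left (by linarith only [hk2]) (by positivity)
      have h5 : R / a * (x₀ * J - 1) = 8 * (R * x₀ / (8 * a) * J) - R / a := by
        field_simp
      have h6 : η * J = R * x₀ / (8 * a) * J := by rw [hη]
      have h7 : Real.log 7 ≤ Real.log 11 := Real.log_le_log (by norm_num) (by norm_num)
      push_cast at h3
      have h8 : 0 < R / a := by positivity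
      linarith only [hl11, hx₀0, hx₀1, hJC, h2, h3, h4, h5, h6, h7, h8]
    have hthin := Stb.thin_lt hSb0 hnB
    have hThP : Pe (Pool.Agent.H49.Ent.cond F.p A True) (Thin (1 / 2 ^ k₀) (Fam.pt F) F.d A) ≤
        Real.exp (-(κ * J)) := by
      rw [Pe_cond, div_le_iff₀ hPA]
      exact hthin.le
    exact by
     have hD := CH_D_base F hlaw (i₀ := i₀) hkh hkq hLb hLn
     -- the exceptional part
     have hexc : Pe (Pool.Agent.H49.Ent.cond F.p A True) (Thin (1 / 2 ^ k₀) (Fam.pt F) F.d A) *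
         ((q + 3) * Real.log 2) ≤ 1 := by
       have h1 : Real.exp (-(κ * J)) ≤ 2 / (κ * J) ^ 2 := by
         rw [Real.exp_neg, ← one_div, div_le_div_iff₀ (Real.exp_pos _) (by positivity), one_mul]
         have h2 := Real.quadratic_le_exp_of_nonneg (show 0 ≤ κ * J by positivity)
         have h3 : 0 ≤ κ * J := by positivity
         linarith only [hx₀0, hx₀1, h2, h3]
       have h2 : ((q : ℝ) + 3) * Real.log 2 ≤ 2 * J := by
         have h3 : Real.log 2 ≤ 1 := by
           have := Real.log_le_sub_one_of_pos (show (0 : ℝ) < 2 by norm_num)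
           linarith only [this]
         have h4 : (q : ℝ) ≤ J := by exact_mod_cast hqJ
         have h5 : ((q : ℝ) + 3) * Real.log 2 ≤ (q + 3) * 1 :=
           mul_le_mul_of_nonneg_left h3 (by positivity)
         linarith only [hJr, t1, t2, t3, h4, h5]
       calc _ ≤ Real.exp (-(κ * J)) * ((q + 3) * Real.log 2) :=
             mul_le_mul_of_nonneg_right hThP (by positivity)
         _ ≤ 2 / (κ * J) ^ 2 * (2 * J) := mul_le_mul h1 h2 (by positivity) (by positivity)
         _ = 4 / (κ ^ 2 * J) := by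
             field_simp
             ring
         _ ≤ 1 := by
             rw [div_le_one (by positivity)]
             linarith only [hx₀0, hx₀1, hJκ]
     have hD' : CH (Pool.Agent.H49.Ent.cond F.p A True) (F.D q)
         (fun ω => (⌊(2 : ℝ) ^ q * F.d ω i₀⌋, Fam.pt F ω)) ≤ 2 * (Real.log 11 + 1) := by
       refine hD.trans ?_
       push_cast
       linarith only [hexc]
     -- the lower bound
     exact by
      obtain ⟨k₂, hk₂⟩ : ∃ k₂, k₂ = min q (J / 2) := ⟨_, rfl⟩
      have hk₂q : k₂ ≤ q := by rw [hk₂]; exact min_le_left _ _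
      have hk₂J : 2 * k₂ ≤ J := by
        have : k₂ ≤ J / 2 := by rw [hk₂]; exact min_le_right _ _
        omega
      have hk₂2 : q ≤ 2 * k₂ + 1 := by
        rw [hk₂]
        rcases le_total q (J / 2) with h | h
        · rw [min_eq_left h]; omega
        · rw [min_eq_right h]; omega
      have hk₂r : (q : ℝ) ≤ 2 * k₂ + 1 := by exact_mod_cast hk₂2
      have h1 := htail J hJ1 F A hS k₂ hk₂J
      have h2 : CH (Pool.Agent.H49.Ent.cond F.p A True) (F.D k₂) (fun ω => (F.X J ω, F.W ω)) ≤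
          CH (Pool.Agent.H49.Ent.cond F.p A True) (F.D q) (Fam.pt F) := by
        refine CH_mono_left hp0 fun ω ω' _ _ h => ?_
        exact Pool.STK.B58.fl_fine hk₂q (Prod.ext_iff.mp h).1
      have h3 := CH_le_add hp0 (F.D q) (fun ω => ⌊(2 : ℝ) ^ q * F.d ω i₀⌋) (Fam.pt F)
      have h4 : R / (2 * a) * (q - 1) ≤ R / a * k₂ := by
        have e1 : R / a * (k₂ : ℝ) = R / (2 * a) * (2 * k₂) := by
          field_simp
        rw [e1]
        exact mul_le_mul_of_nonneg_left (by linarith only [hk₂r]) (by positivity)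
      have h5 : R / (2 * a) * ((q : ℝ) - 1) = 2 * (R / (4 * a) * q) - R / (2 * a) := by
        field_simp
        ring
      have h6 : R * x₀ / (8 * a) * J ≤ R / (4 * a) * q / 2 := by
        have h7 : x₀ * J ≤ q := by
          have : x₀ * J ≤ x / 2 * J := mul_le_mul_of_nonneg_right hx₀x hJpos.le
          have : 0 < x * J := by positivity
          linarith
        have h8 : R / (8 * a) * (x₀ * J) ≤ R / (8 * a) * q :=
          mul_le_mul_of_nonneg_left h7 (by positivity)
        have e1 : R * x₀ / (8 * a) * J = R / (8 * a) * (x₀ * J) := by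
          field_simp
        have e2 : R / (4 * a) * (q : ℝ) / 2 = R / (8 * a) * q := by
          field_simp
          ring
        rw [e1, e2]
        exact h8
      exact by
       have h7 : η * J = R * x₀ / (8 * a) * J := by rw [hη]
       have h8 : R / (2 * a) ≤ R / a := by
         rw [div_le_div_iff₀ (by positivity) ha0]
         nlinarith only [hR, ha]
       linarith only [hx₀0, hx₀1, hJC, hD, hexc, h1, h2, h3, h4, h5, h6, h7, h8]

end Pool.K2S
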