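import Pool.Agent.H13.K2S.Zon
import Pool.Agent.H13.K2S.OcDefs
import Pool.Agent.H45.K2.ACT
import Pool.Agent.H35.K2S.LineU

/-!
# Activity of the fans of a large event

The digits of the directions at the exact points have a positive rate at a positive density of the
scales, simultaneously for all block lengths up to a proportion of the scale.
-/

set_option autoImplicit false

namespace Pool.K2S

open Finset Real
open Pool.Agent.H49.Ent Pool.Agent.H32.Dense Pool.STK Pool.KA Pool.KSAT

/-! ### A rising sun lemma -/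

/-- The growth from `i` is at least `α` per step, for all lengths at most `X`. -/
def Gro (g : ℕ → ℝ) (α : ℝ) (X i : ℕ) : Prop := ∀ s : ℕ, 1 ≤ s → s ≤ X → α * s ≤ g (i + s) - g i

open Classical in
/-- The starting points from which the growth is at least `α` per step, for all lengths at most
`X`. -/
noncomputable def rsun (g : ℕ → ℝ) (α : ℝ) (X i n : ℕ) : Finset ℕ :=
  (Finset.Ico i n).filter fun i => Gro g α X i

theorem rsun_sub {g : ℕ → ℝ} {α : ℝ} {X i j n : ℕ} (h : i ≤ j) :
    rsun g α X j n ⊆ rsun g α X i n := by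
  classical
  intro k hk
  unfold rsun at hk ⊢
  rw [Finset.mem_filter, Finset.mem_Ico] at hk ⊢
  exact ⟨⟨h.trans hk.1.1, hk.1.2⟩, hk.2⟩

/-- The rising sun lemma. -/
theorem rising (g : ℕ → ℝ) (α β : ℝ) (hα : 0 ≤ α) (hβ : 0 ≤ β) (X n : ℕ)
    (hmono : ∀ i j, i ≤ j → g i ≤ g j) (hinc : ∀ i, g (i + 1) - g i ≤ β) :
    ∀ k i : ℕ, n + X = i + k → g n - g i ≤ α * k + β * (rsun g α X i n).card := by
  classical
  intro k
  induction k using Nat.strong_induction_on with
  | _ k ih =>
    intro i hi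
    by_cases hin : n ≤ i
    · have h1 := hmono n i hin
      have h2 : 0 ≤ α * k := by positivity
      have h3 : 0 ≤ β * ((rsun g α X i n).card : ℝ) := by positivity
      linarith
    push Not at hin
    by_cases hG : Gro g α X i
    · -- one step
      obtain ⟨k, rfl⟩ : ∃ k', k = k' + 1 := ⟨k - 1, by omega⟩
      have h1 := ih k (by omega) (i + 1) (by omega)
      have h2 := hinc i
      have hmem : i ∈ rsun g α X i n := by
        unfold rsun
        rw [Finset.mem_filter, Finset.mem_Ico]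
        exact ⟨⟨le_rfl, hin⟩, hG⟩
      have hnot : i ∉ rsun g α X (i + 1) n := by
        unfold rsun
        rw [Finset.mem_filter, Finset.mem_Ico]
        rintro ⟨⟨h, -⟩, -⟩
        omega
      have h3 : (rsun g α X (i + 1) n).card + 1 ≤ (rsun g α X i n).card := by
        rw [← Finset.card_insert_of_notMem hnot]
        refine Finset.card_le_card fun j hj => ?_
        rcases Finset.mem_insert.1 hj with rfl | hj
        · exact hmem
        · exact rsun_sub (Nat.le_succ i) hj
      have h4 : ((rsun g α X (i + 1) n).card : ℝ) + 1 ≤ (rsun g α X i n).card := by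
        exact_mod_cast h3
      have h5 : β * (((rsun g α X (i + 1) n).card : ℝ) + 1) ≤ β * (rsun g α X i n).card :=
        mul_le_mul_of_nonneg_left h4 hβ
      have h6 : α * k ≤ α * ((k + 1 : ℕ) : ℝ) := by
        push_cast
        linarith
      linarith
    · -- a jump
      unfold Gro at hG
      push Not at hG
      obtain ⟨s, hs1, hsX, hs⟩ := hG
      have h1 := ih (k - s) (by omega) (i + s) (by omega)
      have h2 : ((k - s : ℕ) : ℝ) = k - s := Nat.cast_sub (by omega)
      have h3 : ((rsun g α X (i + s) n).card : ℝ) ≤ (rsun g α X i n).card := by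
        exact_mod_cast Finset.card_le_card (rsun_sub (Nat.le_add_right i s))
      have h4 := mul_le_mul_of_nonneg_left h3 hβ
      rw [h2] at h1
      linarith

/-! ### The rate of the fans -/

/-- **(P2)** The directions at the exact points of a large event. -/
theorem act_tail (m : ℕ) {a R : ℝ} (ha : 1 ≤ a) (hU : UBa m a R)
    {η : ℝ} (hη : 0 < η) : ∃ τ : ℝ, 0 < τ ∧ ∃ J₁ : ℕ, ∀ J ≥ J₁, ∀ (F : Fam m J)
      (A : F.Ω → Prop), Fam.Stt F a R τ A → ∀ q : ℕ, 2 * q ≤ J →
      R / a * q - η * J ≤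
        CH (Pool.Agent.H49.Ent.cond F.p A True) (F.D q) (fun ω => (F.X J ω, F.W ω)) := by
  obtain ⟨C, hC, h2⟩ := ap2_thm aop_thm m
  have ha0 : 0 < a := by linarith
  obtain ⟨θ, hθ, J₂, h3⟩ := tub_Ga_le tub_thm hU (show 0 < η / 8 by linarith)
    (show (0 : ℝ) < 1 / 4 by norm_num)
  obtain ⟨τ', hτ'⟩ : ∃ τ', τ' = min θ (η / 8) := ⟨_, rfl⟩
  have hτ'0 : 0 < τ' := by rw [hτ']; exact lt_min hθ (by linarith)
  have hτθ : τ' ≤ θ := by rw [hτ']; exact min_le_left _ _
  have hτη : τ' ≤ η / 8 := by rw [hτ']; exact min_le_right _ _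
  obtain ⟨τ, hτ⟩ : ∃ τ, τ = τ' / (6 * (1 + a)) := ⟨_, rfl⟩
  have hτ0 : 0 < τ := by rw [hτ]; positivity
  obtain ⟨J₁, hJ₁⟩ := exists_nat_gt (8 * C / η)
  refine ⟨τ, hτ0, max J₂ (J₁ + 1), ?_⟩
  intro J hJ F A hS q hq
  have hJ2 : J₂ ≤ J := (le_max_left _ _).trans hJ
  have hJ1 : J₁ + 1 ≤ J := (le_max_right _ _).trans hJ
  have hJr : (0 : ℝ) < J := by
    have : 0 < J := by omega
    exact_mod_cast this
  have hJC : C ≤ η / 8 * J := by
    have h1 : 8 * C / η < J := hJ₁.trans_le (by exact_mod_cast (by omega : J₁ ≤ J))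
    rw [div_lt_iff₀ hη] at h1
    linarith
  have hqJ : q ≤ J := by omega
  have hqr : 2 * (q : ℝ) ≤ J := by exact_mod_cast hq
  obtain ⟨hlaw, -, hMx, -⟩ := hS.res ha hτ0.le
  have e7 : (1 + a) * (6 * τ) = τ' := by
    rw [hτ]
    field_simp
  rw [e7] at hMx
  have hTm : (F.res A True hlaw).Tm (τ' * J) := hMx.1
  have hTθ : (F.res A True hlaw).Tm (θ * J) := by
    unfold Fam.Tm at hTm ⊢
    have := mul_le_mul_of_nonneg_right hτθ hJr.le
    linarith
  have hub := h3 J hJ2 (F.res A True hlaw) hTθ q hqJ (by linarith)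
  have hGa : (R - η / 8) * J ≤ (F.res A True hlaw).Ga a := by
    refine le_trans ?_ hMx.2
    exact mul_le_mul_of_nonneg_right (by linarith) hJr.le
  have h9 := h2 J q hqJ (F.res A True hlaw) a R (η / 8) (τ' * J) ha (by linarith) hTm hGa hub
  have hp0 := (F.res A True hlaw).isLaw.nonneg
  have h10 : 0 ≤ (a - 1) * CH (F.res A True hlaw).p ((F.res A True hlaw).L q)
    (F.res A True hlaw).Z := mul_nonneg (by linarith) (CH_nonneg hp0 _ _)
  have h11 : 0 ≤ CH (F.res A True hlaw).p ((F.res A True hlaw).L q)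
    (fun ω => ((F.res A True hlaw).D J ω, (F.res A True hlaw).Z ω)) := CH_nonneg hp0 _ _
  obtain ⟨S, hS'⟩ : ∃ S, S = CH (Pool.Agent.H49.Ent.cond F.p A True) (F.D q)
    (fun ω => (F.X J ω, F.W ω)) := ⟨_, rfl⟩
  have h4 : R * q ≤ a * S + 2 * (η / 8) * J + 2 * a * (τ' * J + C) := by
    rw [hS']
    have h12 : CH (F.res A True hlaw).p ((F.res A True hlaw).D q)
      (fun ω => ((F.res A True hlaw).X J ω, (F.res A True hlaw).W ω)) =
      CH (Pool.Agent.H49.Ent.cond F.p A True) (F.D q) (fun ω => (F.X J ω, F.W ω)) := rfl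
    rw [h12] at h9
    linarith
  rw [← hS']
  have h5 : τ' * J ≤ η / 8 * J := mul_le_mul_of_nonneg_right hτη hJr.le
  have h6 : 2 * (η / 8) * J ≤ a * (2 * (η / 8) * J) := by
    have : 0 ≤ (a - 1) * (2 * (η / 8) * J) := mul_nonneg (by linarith) (by positivity)
    linarith
  have h7 : 2 * a * (τ' * J + C) ≤ a * (η / 2 * J) := by
    have : 2 * (τ' * J + C) ≤ η / 2 * J := by linarith
    calc 2 * a * (τ' * J + C) = a * (2 * (τ' * J + C)) := by ring
      _ ≤ _ := mul_le_mul_of_nonneg_left this ha0.le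
  have h8 : a * (R / a * q - η * J) ≤ a * S := by
    have e1 : a * (R / a * q - η * J) = R * q - a * (η * J) := by
      field_simp
    rw [e1]
    have : 0 ≤ a * (η / 4 * J) := by positivity
    linarith
  exact le_of_mul_le_mul_left h8 ha0

/-- The fans of the event are active after the digit `q u`, for all blocks of at most `X` digits
(in units of `u` digits), with rate `c`. -/
def Actv {m J : ℕ} (F : Fam m J) (A : F.Ω → Prop) (c : ℝ) (u X q : ℕ) : Prop :=
  ∀ s : ℕ, 1 ≤ s → s ≤ X → c * ((s * u : ℕ) : ℝ) ≤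
    CH (Pool.Agent.H49.Ent.cond F.p A True) (F.D ((q + s) * u))
      (fun ω => (F.D (q * u) ω, (F.X J ω, F.W ω)))

open Classical in
/-- **Activity.** At a positive proportion of the scales the fans at the exact points are active,
for all block lengths up to a proportion of the scale. -/
theorem actm (m : ℕ) {a R : ℝ} (ha : 1 ≤ a) (hR : 0 < R) (hU : UBa m a R)
    {x : ℝ} (hx : 0 < x) {N : ℕ} (hN : 0 < N) :
    Claim (m := m) a R (fun J F A => ∀ qa qb X : ℕ, x * N ≤ qb → 2 * qb ≤ N → qa ≤ qb →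
      m * Real.log 2 * qa ≤ R / (8 * a) * qb → 4 * X ≤ qb →
      R / (8 * a) * qb ≤ m * Real.log 2 *
        ((Finset.Ico qa qb).filter fun q => Actv F A (R / (2 * a)) (J / N) X q).card) := by
  have ha0 : 0 < a := by linarith
  have hl2 : 0 < Real.log 2 := Real.log_pos (by norm_num)
  have hl3 : 0 ≤ Real.log 3 := Real.log_nonneg (by norm_num)
  obtain ⟨η, hη⟩ : ∃ η, η = R * x / (32 * a) := ⟨_, rfl⟩
  have hη0 : 0 < η := by rw [hη]; positivity
  obtain ⟨τ, hτ, J₁, htail⟩ := act_tail m ha hU hη0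
  obtain ⟨J₂, hJ₂⟩ := exists_nat_gt (32 * a * (m * Real.log 3) / (R * x))
  refine Claim.of hτ (max J₁ (max J₂ (2 * N))) fun J hJ F A hS => ?_
  have hJ1 : J₁ ≤ J := (le_max_left _ _).trans hJ
  have hJ2 : J₂ ≤ J := (le_max_left _ _).trans ((le_max_right _ _).trans hJ)
  have hJ3 : 2 * N ≤ J := (le_max_right _ _).trans ((le_max_right _ _).trans hJ)
  have hNr : (0 : ℝ) < N := by exact_mod_cast hN
  have hJr : (0 : ℝ) < J := by
    have : 0 < J := by omega
    exact_mod_cast this
  have hJm : m * Real.log 3 ≤ R * x / (32 * a) * J := by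
    have h1 : 32 * a * (m * Real.log 3) / (R * x) < J := hJ₂.trans_le (by exact_mod_cast hJ2)
    rw [div_lt_iff₀ (by positivity)] at h1
    rw [div_mul_eq_mul_div, le_div_iff₀ (by positivity)]
    linarith
  intro qa qb X hxb hqN hab hqa hX
  obtain ⟨u, hu⟩ : ∃ u, u = J / N := ⟨_, rfl⟩
  rw [← hu]
  have hu1 : N * u ≤ J := by rw [hu]; exact Nat.mul_div_le J N
  have hu2 : J < N * (u + 1) := by rw [hu]; exact Nat.lt_mul_div_succ J hN
  have hu2r : (J : ℝ) ≤ 2 * (N * u) := by
    have h1 : (J : ℝ) < N * (u + 1) := by exact_mod_cast hu2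
    have h2 : 2 * (N : ℝ) ≤ J := by exact_mod_cast hJ3
    linarith
  have hu0 : (0 : ℝ) < u := by
    by_contra hcon
    push Not at hcon
    have : (N : ℝ) * u ≤ 0 := mul_nonpos_of_nonneg_of_nonpos hNr.le hcon
    linarith
  obtain ⟨hlaw, -, -, -⟩ := hS.res ha hτ.le
  have hq0 := hlaw.nonneg
  set G : Fam m J := F.res A True hlaw with hG
  set g : ℕ → ℝ := fun i => CH (Pool.Agent.H49.Ent.cond F.p A True) (F.D (i * u))
    (fun ω => (F.X J ω, F.W ω)) with hg
  obtain ⟨hb1, hb2⟩ := actb_thm m J G u qa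
  have hdiff : ∀ i s : ℕ, g (i + s) - g i ≤ CH (Pool.Agent.H49.Ent.cond F.p A True)
      (F.D ((i + s) * u)) (fun ω => (F.D (i * u) ω, (F.X J ω, F.W ω))) := by
    intro i s
    have h1 := CH_le_add hq0 (F.D ((i + s) * u)) (F.D (i * u)) (fun ω => (F.X J ω, F.W ω))
    show CH _ (F.D ((i + s) * u)) _ - CH _ (F.D (i * u)) _ ≤ _
    linarith
  have hmono : ∀ i j, i ≤ j → g i ≤ g j := by
    intro i j hij
    refine CH_mono_left hq0 fun ω ω' _ _ h => ?_
    exact Pool.STK.B58.fl_fine (Nat.mul_le_mul_right u hij) (Prod.ext_iff.mp h).1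
  have hstep : ∀ i, g (i + 1) - g i ≤ m * Real.log 2 * u := by
    intro i
    refine (hdiff i 1).trans ?_
    have h1 := hb1 i
    have e1 : u * (i + 1) = (i + 1) * u := by ring
    have e2 : u * i = i * u := by ring
    rw [e1, e2] at h1
    refine le_trans h1 (le_of_eq ?_)
    ring
  have hga : g qa ≤ m * Real.log 3 + m * Real.log 2 * qa * u := by
    have h1 : CH G.p (G.D (u * qa)) (fun ω => (G.X J ω, G.W ω)) ≤ m * Real.log 3 +
        ∑ i ∈ range qa, (m : ℝ) * (u * Real.log 2) :=
      hb2.trans (by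
        have := Finset.sum_le_sum fun i (_ : i ∈ range qa) => hb1 i
        linarith)
    rw [Finset.sum_const, Finset.card_range, nsmul_eq_mul] at h1
    have e1 : u * qa = qa * u := by ring
    rw [e1] at h1
    refine le_trans h1 (le_of_eq ?_)
    ring
  have hqbJ : 2 * (qb * u) ≤ J := by
    calc 2 * (qb * u) = (2 * qb) * u := by ring
      _ ≤ N * u := Nat.mul_le_mul_right u hqN
      _ ≤ J := hu1
  have hgb := htail J hJ1 F A hS (qb * u) hqbJ
  have hgb' : R / a * ((qb * u : ℕ) : ℝ) - η * J ≤ g qb := hgb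
  have hα : 0 ≤ R / (2 * a) * u := by positivity
  have hβ : 0 ≤ m * Real.log 2 * (u : ℝ) := by positivity
  have hrise := rising g (R / (2 * a) * u) (m * Real.log 2 * u) hα hβ X qb hmono hstep
    (qb + X - qa) qa (by omega)
  have hcast : ((qb + X - qa : ℕ) : ℝ) ≤ qb + X := by
    have : ((qb + X - qa : ℕ) : ℝ) ≤ ((qb + X : ℕ) : ℝ) := by exact_mod_cast Nat.sub_le _ _
    push_cast at this
    exact this
  have hsub : (rsun g (R / (2 * a) * u) X qa qb).card ≤
      ((Finset.Ico qa qb).filter fun q => Actv F A (R / (2 * a)) u X q).card := by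
    refine Finset.card_le_card fun q hq => ?_
    unfold rsun at hq
    rw [Finset.mem_filter] at hq ⊢
    refine ⟨hq.1, fun s hs1 hs2 => ?_⟩
    refine le_trans (le_of_eq ?_) ((hq.2 s hs1 hs2).trans (hdiff q s))
    push_cast
    ring
  have hsubr : ((rsun g (R / (2 * a) * u) X qa qb).card : ℝ) ≤
      ((Finset.Ico qa qb).filter fun q => Actv F A (R / (2 * a)) u X q).card := by
    exact_mod_cast hsub
  obtain ⟨n, hn⟩ : ∃ n : ℝ, n = (((Finset.Ico qa qb).filter fun q =>
    Actv F A (R / (2 * a)) u X q).card : ℝ) := ⟨_, rfl⟩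
  rw [← hn] at hsubr ⊢
  have k1 : m * Real.log 2 * u * ((rsun g (R / (2 * a) * u) X qa qb).card : ℝ) ≤
      m * Real.log 2 * u * n := mul_le_mul_of_nonneg_left hsubr hβ
  have k2 : R / (2 * a) * u * ((qb + X - qa : ℕ) : ℝ) ≤ R / (2 * a) * u * (qb + X) :=
    mul_le_mul_of_nonneg_left hcast hα
  have hXr : 4 * (X : ℝ) ≤ qb := by exact_mod_cast hX
  have k3 : R / (2 * a) * u * (qb + X) ≤ R / (2 * a) * u * qb + R / (8 * a) * u * qb := by
    have : R / (2 * a) * u * X ≤ R / (2 * a) * u * (qb / 4) :=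
      mul_le_mul_of_nonneg_left (by linarith) hα
    have e : R / (2 * a) * u * ((qb : ℝ) / 4) = R / (8 * a) * u * qb := by
      field_simp
      ring
    rw [e] at this
    linarith
  have k4 : m * Real.log 2 * qa * u ≤ R / (8 * a) * qb * u :=
    mul_le_mul_of_nonneg_right hqa hu0.le
  -- the errors
  have k5 : η * J + m * Real.log 3 ≤ R / (8 * a) * u * qb := by
    have h1 : x * J ≤ 2 * (u * qb) := by
      calc x * J ≤ x * (2 * (N * u)) := mul_le_mul_of_nonneg_left hu2r hx.le
        _ = 2 * (u * (x * N)) := by ring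
        _ ≤ _ := by
          have := mul_le_mul_of_nonneg_left hxb hu0.le
          linarith
    have h2 : η * J + m * Real.log 3 ≤ R / (16 * a) * (x * J) := by
      have : η * J = R * x / (32 * a) * J := by rw [hη]
      rw [this]
      refine (add_le_add_right hJm _).trans (le_of_eq ?_)
      field_simp
      ring
    refine h2.trans ?_
    have h3 := mul_le_mul_of_nonneg_left h1 (show 0 ≤ R / (16 * a) by positivity)
    refine h3.trans (le_of_eq ?_)
    field_simp
    ring
  have k6 : R / a * ((qb * u : ℕ) : ℝ) = 4 * (R / (8 * a) * u * qb) + R / (2 * a) * u * qb := by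
    push_cast
    field_simp
    ring
  rw [k6] at hgb'
  have k7 : R / (8 * a) * qb * u ≤ m * Real.log 2 * n * u := by
    have e1 : R / (8 * a) * qb * u = R / (8 * a) * u * qb := by ring
    have e2 : m * Real.log 2 * n * u = m * Real.log 2 * u * n := by ring
    rw [e1, e2]
    rw [e1] at k4
    linarith
  exact le_of_mul_le_mul_right k7 hu0

end Pool.K2S
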