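import Pool.Agent.H44.K2.ACTM
import Pool.Agent.H13.K2S.OcFam
import Pool.Agent.H54.K2S.Lab2

/-!
# Activity: the statements of the Fam layer

`act1_thm : ACT1Stmt`, `frz_thm : FRZStmt`, `actsel_thm : ACTSELStmt`, `h4_thm : H4Stmt`.
-/

set_option autoImplicit false

namespace Pool.K2S

open Finset Real
open Pool.Agent.H49.Ent Pool.Agent.H32.Dense Pool.STK Pool.KA Pool.KSAT

/-! ### The selection of active scales -/

/-- The growth from `q` is linear at all scales. -/
def Act1 (n : ℕ) (α : ℝ) (f : ℕ → ℝ) (q : ℕ) : Prop :=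
  ∀ s, q + s ≤ n → α * s ≤ f (q + s) - f q

open Classical in
theorem actsel_aux (n : ℕ) (α : ℝ) (hα : 0 ≤ α) (f : ℕ → ℝ)
    (hf : ∀ q < n, 0 ≤ f (q + 1) - f q ∧ f (q + 1) - f q ≤ 1) : ∀ k i : ℕ, i + k = n →
    f n - f i ≤ α * k + (((Finset.Ico i n).filter fun q => Act1 n α f q).card : ℝ) := by
  intro k
  induction k using Nat.strong_induction_on with
  | _ k ih =>
    intro i hi
    rcases Nat.eq_zero_or_pos k with hk | hk
    · have h1 : i = n := by omega
      rw [h1, hk, Finset.Ico_self]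
      simp
    by_cases hG : Act1 n α f i
    · obtain ⟨k, rfl⟩ : ∃ k', k = k' + 1 := ⟨k - 1, by omega⟩
      have h1 := ih k (by omega) (i + 1) (by omega)
      have h2 := (hf i (by omega)).2
      have h3 : (((Finset.Ico (i + 1) n).filter fun q => Act1 n α f q).card : ℝ) + 1 ≤
          (((Finset.Ico i n).filter fun q => Act1 n α f q).card : ℝ) := by
        have hnot : i ∉ (Finset.Ico (i + 1) n).filter fun q => Act1 n α f q := by
          rw [Finset.mem_filter, Finset.mem_Ico]
          rintro ⟨⟨h, -⟩, -⟩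
          omega
        have h4 : ((Finset.Ico (i + 1) n).filter fun q => Act1 n α f q).card + 1 ≤
            ((Finset.Ico i n).filter fun q => Act1 n α f q).card := by
          rw [← Finset.card_insert_of_notMem hnot]
          refine Finset.card_le_card fun j hj => ?_
          rcases Finset.mem_insert.1 hj with rfl | hj
          · rw [Finset.mem_filter, Finset.mem_Ico]
            exact ⟨⟨le_rfl, by omega⟩, hG⟩
          · rw [Finset.mem_filter, Finset.mem_Ico] at hj ⊢
            exact ⟨⟨by omega, hj.1.2⟩, hj.2⟩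
        exact_mod_cast h4
      push_cast
      linarith
    · unfold Act1 at hG
      push Not at hG
      obtain ⟨s, hs1, hs⟩ := hG
      have hs0 : 1 ≤ s := by
        rcases Nat.eq_zero_or_pos s with h | h
        · rw [h] at hs
          simp at hs
        · exact h
      have h1 := ih (k - s) (by omega) (i + s) (by omega)
      have h2 : ((k - s : ℕ) : ℝ) = k - s := Nat.cast_sub (by omega)
      have h3 : (((Finset.Ico (i + s) n).filter fun q => Act1 n α f q).card : ℝ) ≤
          (((Finset.Ico i n).filter fun q => Act1 n α f q).card : ℝ) := by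
        have : ((Finset.Ico (i + s) n).filter fun q => Act1 n α f q).card ≤
            ((Finset.Ico i n).filter fun q => Act1 n α f q).card := by
          refine Finset.card_le_card fun j hj => ?_
          rw [Finset.mem_filter, Finset.mem_Ico] at hj ⊢
          exact ⟨⟨by omega, hj.1.2⟩, hj.2⟩
        exact_mod_cast this
      rw [h2] at h1
      linarith

theorem actsel_thm : ACTSELStmt := by
  classical
  intro n c f hc hf hn
  have h1 := actsel_aux n (c / 2) (by linarith) f hf n 0 (by omega)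
  have h2 : (((Finset.Ico 0 n).filter fun q => Act1 n (c / 2) f q).card : ℝ) ≤
      (((Finset.range n).filter fun q => ∀ s, q + s ≤ n →
        c / 2 * s ≤ f (q + s) - f q).card : ℝ) := by
    have : ((Finset.Ico 0 n).filter fun q => Act1 n (c / 2) f q).card ≤
        ((Finset.range n).filter fun q => ∀ s, q + s ≤ n →
          c / 2 * s ≤ f (q + s) - f q).card := by
      refine Finset.card_le_card fun j hj => ?_
      rw [Finset.mem_filter, Finset.mem_Ico] at hj
      exact Finset.mem_filter.2 ⟨Finset.mem_range.2 hj.1.2, hj.2⟩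
    exact_mod_cast this
  linarith

/-! ### Floors -/

theorem flo_le {x y c : ℝ} (h : |x - y| ≤ c) : |((⌊x⌋ - ⌊y⌋ : ℤ) : ℝ)| ≤ c + 1 := by
  have a1 := Int.floor_le x
  have a2 := Int.lt_floor_add_one x
  have b1 := Int.floor_le y
  have b2 := Int.lt_floor_add_one y
  rw [abs_le] at h ⊢
  push_cast
  constructor <;> linarith [h.1, h.2]

theorem of_flo {x y : ℝ} (h : ⌊x⌋ = ⌊y⌋) : |x - y| ≤ 1 := by
  have a1 := Int.floor_le x
  have a2 := Int.lt_floor_add_one x
  have b1 := Int.floor_le y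
  have b2 := Int.lt_floor_add_one y
  rw [h] at a1 a2
  rw [abs_le]
  constructor <;> linarith

/-! ### Frozen digits -/

theorem frz_thm : FRZStmt := by
  refine ⟨Real.log 7, fun J F i₀ A q q' hlaw hF => ?_⟩
  obtain ⟨φ, hφ⟩ := hF
  have h1 := Lab.CH_int_const (m := 2) (F := F) hlaw (fun ω => ⌊(2 : ℝ) ^ q' * F.d ω i₀⌋)
    (fun ω => (⌊(2 : ℝ) ^ q * F.d ω i₀⌋, Fam.pt F ω)) (c := 3) ?_
  · refine h1.trans (le_of_eq ?_)
    norm_num
  · intro ω ω' hω hω' hW
    have hA : A ω := by
      have := ((cond_pos_iff F.isLaw.nonneg A True ω).1 hω).2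
      rw [this]; trivial
    have hA' : A ω' := by
      have := ((cond_pos_iff F.isLaw.nonneg A True ω').1 hω').2
      rw [this]; trivial
    have e := Prod.ext_iff.mp hW
    have k1 := hφ ω hA
    have k2 := hφ ω' hA'
    have e1 : ⌊(2 : ℝ) ^ q * F.d ω i₀⌋ = ⌊(2 : ℝ) ^ q * F.d ω' i₀⌋ := e.1
    have e2 : Fam.pt F ω = Fam.pt F ω' := e.2
    rw [← e1, ← e2] at k2
    have hp : (0 : ℝ) < 2 ^ q' := by positivity
    have k3 : |(2 : ℝ) ^ q' * F.d ω i₀ - 2 ^ q' * F.d ω' i₀| ≤ 2 := by
      rw [← mul_sub, abs_mul, abs_of_pos hp]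
      have k4 : |F.d ω i₀ - F.d ω' i₀| ≤ 2 * (1 / 2 ^ q') := by
        rw [abs_le] at k1 k2 ⊢
        constructor <;> linarith [k1.1, k1.2, k2.1, k2.2]
      calc (2 : ℝ) ^ q' * |F.d ω i₀ - F.d ω' i₀| ≤ 2 ^ q' * (2 * (1 / 2 ^ q')) :=
            mul_le_mul_of_nonneg_left k4 hp.le
        _ = 2 := by field_simp
    exact (flo_le k3).trans (by norm_num)

/-! ### The base velocity inside the context -/

theorem h4_thm : H4Stmt := by
  refine ⟨2 * Real.log 9 + 2 * (2 * Real.log 25), fun J F i₀ A f n w q l X H z hlaw hF hz hJ hH => ?_⟩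
  have h0 := hlaw.nonneg
  set Q := Pool.Agent.H49.Ent.cond F.p A True with hQ
  have hA : ∀ ω, 0 < Q ω → A ω := by
    intro ω hω
    have := ((cond_pos_iff F.isLaw.nonneg A True ω).1 hω).2
    rw [this]; trivial
  set B : F.Ω → ℤ × ((Fin 2 → ℤ) × (ℕ × F.ζ)) := fun ω =>
    (⌊(2 : ℝ) ^ q * F.d ω i₀⌋, Fam.pt F ω) with hB
  -- the frame is almost a function of the point
  have hpl : (0 : ℝ) < 2 ^ l := by positivity
  have hz1 : CH Q z B ≤ 2 * Real.log 9 := by
    have k1 := Lab.CH_fin_const (m := 2) (F := F) hlaw (fun ω j => ⌊(2 : ℝ) ^ l * z ω j⌋) B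
      (c := 4) ?_
    · have k2 : CH Q z B ≤ CH Q (fun ω (j : Fin 2) => ⌊(2 : ℝ) ^ l * z ω j⌋) B := by
        refine CH_mono_left h0 fun ω ω' _ _ h => ?_
        have e := (Prod.ext_iff.mp h).1
        funext j
        have e1 : ⌊(2 : ℝ) ^ l * z ω j⌋ = ⌊(2 : ℝ) ^ l * z ω' j⌋ := congrFun e j
        obtain ⟨k, hk⟩ := hz.gr ω j
        obtain ⟨k', hk'⟩ := hz.gr ω' j
        have e2 : (2 : ℝ) ^ l * z ω j = k := by rw [hk]; field_simp
        have e3 : (2 : ℝ) ^ l * z ω' j = k' := by rw [hk']; field_simp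
        rw [e2, e3, Int.floor_intCast, Int.floor_intCast] at e1
        rw [hk, hk', e1]
      refine k2.trans (k1.trans (le_of_eq ?_))
      norm_num
    · intro ω ω' hω hω' hW j
      have e2 : Fam.pt F ω = Fam.pt F ω' := (Prod.ext_iff.mp hW).2
      obtain ⟨k, hk⟩ := hz.gr ω j
      obtain ⟨k', hk'⟩ := hz.gr ω' j
      have e2' : (2 : ℝ) ^ l * z ω j = k := by rw [hk]; field_simp
      have e3' : (2 : ℝ) ^ l * z ω' j = k' := by rw [hk']; field_simp
      have e4 : ((⌊(2 : ℝ) ^ l * z ω j⌋ - ⌊(2 : ℝ) ^ l * z ω' j⌋ : ℤ) : ℝ) =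
          2 ^ l * (z ω j - z ω' j) := by
        push_cast
        rw [mul_sub, e2', e3', Int.floor_intCast, Int.floor_intCast]
      rw [e4, abs_mul, abs_of_pos hpl]
      by_cases hj : j = i₀
      · rw [hj, hz.z0 ω, hz.z0 ω', sub_zero, abs_zero, mul_zero]
        norm_num
      · have a1 := hz.cl ω (hA ω hω) j hj
        have a2 := hz.cl ω' (hA ω' hω') j hj
        rw [← e2] at a2
        have a3 : |z ω j - z ω' j| ≤ 4 / 2 ^ l := by
          have : (4 : ℝ) / 2 ^ l = 2 / 2 ^ l + 2 / 2 ^ l := by ring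
          rw [this]
          rw [abs_le] at a1 a2 ⊢
          constructor <;> linarith [a1.1, a1.2, a2.1, a2.2]
        calc (2 : ℝ) ^ l * |z ω j - z ω' j| ≤ 2 ^ l * (4 / 2 ^ l) :=
              mul_le_mul_of_nonneg_left a3 hpl.le
          _ = 4 := by field_simp
  -- the label of the context
  set z' : F.Ω → Fin 2 → ℝ := fun ω => Function.update (z ω) i₀ 1 with hz'
  set e' : F.Ω → Fin 2 → ℝ := fun ω => Function.update (f (Fam.pt F ω)) i₀ 1 with he'
  set n' : F.Ω → Fin 2 → ℝ := fun ω => Function.update (n (Fam.pt F ω)) i₀ 0 with hn'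
  have hpco : ∀ ω (x : Fin 2 → ℝ), pco l i₀ (z' ω) x = pco l i₀ (z ω) x := by
    intro ω x
    funext i
    unfold pco
    by_cases hi : i = i₀
    · rw [if_pos hi, if_pos hi]
    · rw [if_neg hi, if_neg hi, hz']
      simp only
      rw [Function.update_of_ne hi]
  have hlab : CH Q (F.qlb w q l i₀ z) (fun ω => (z ω, B ω)) ≤ 2 * (2 * Real.log 25) := by
    have k1 := Lab.CH_glb_of_pt (m := 2) (F := F) hlaw (g := w) (a := q + w) (c := q) (lam := l)
      (q := q) (l := l) (h := H) (i0 := i₀) (z := z') (e := e') (n := n') (C := 4) (by omega)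
      (by norm_num) ?_ ?_ ?_ (by omega) (by omega) (by omega) (by omega) le_rfl hH le_rfl
      (fun ω => (z ω, B ω)) ?_
    · have k2 : CH Q (F.qlb w q l i₀ z) (fun ω => (z ω, B ω)) ≤
          CH Q (F.glb w (q + w) q l i₀ z') (fun ω => (z ω, B ω)) := by
        refine CH_mono_left h0 fun ω ω' _ _ h => ?_
        have e := Prod.ext_iff.mp h
        have e1 := Lab.glb_ext e.1
        have e2 : z ω = z ω' := (Prod.ext_iff.mp e.2).1
        obtain ⟨b1, b2, b3, b4, b5⟩ := e1
        refine Prod.ext (Prod.ext (Prod.ext b1 e2) (Prod.ext ?_ ?_)) b5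
        · change fl (q + w) (pco l i₀ (z ω) (F.x1 w ω)) = fl (q + w) (pco l i₀ (z ω') (F.x1 w ω'))
          have := b3
          unfold Fam.gps at this
          rwa [hpco, hpco] at this
        · change fl q (pco l i₀ (z ω) (F.d ω)) = fl q (pco l i₀ (z ω') (F.d ω'))
          have := b4
          unfold Fam.gvl at this
          rwa [hpco, hpco] at this
      refine k2.trans (k1.trans (le_of_eq ?_))
      norm_num
    · intro ω hω j
      by_cases hj : j = i₀
      · rw [hj, he', hn']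
        simp only [Function.update_self]
        rw [one_mul, sub_self, sub_zero, abs_zero]
        positivity
      · rw [he', hn']
        simp only
        rw [Function.update_of_ne hj, Function.update_of_ne hj]
        exact hF.on ω (hA ω hω) j
    · intro ω hω j
      by_cases hj : j = i₀
      · rw [hj, hz']
        simp only [Function.update_self]
        norm_num
      · rw [hz']
        simp only
        rw [Function.update_of_ne hj]
        have a1 := hz.cl ω (hA ω hω) j hj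
        have a2 := hF.bd ω (hA ω hω) j
        have a3 : (2 : ℝ) / 2 ^ l ≤ 2 := by
          rw [div_le_iff₀ hpl]
          have : (1 : ℝ) ≤ 2 ^ l := one_le_pow₀ (by norm_num)
          linarith
        rw [abs_le] at a1 a2 ⊢
        constructor <;> linarith [a1.1, a1.2, a2.1, a2.2]
    · intro ω hω j
      by_cases hj : j = i₀
      · rw [hj, hz', he']
        simp only [Function.update_self]
        rw [sub_self, abs_zero, mul_zero]
        norm_num
      · rw [hz', he']
        simp only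
        rw [Function.update_of_ne hj, Function.update_of_ne hj]
        have a1 := hz.cl ω (hA ω hω) j hj
        calc (2 : ℝ) ^ l * |f (Fam.pt F ω) j - z ω j| ≤ 2 ^ l * (2 / 2 ^ l) :=
              mul_le_mul_of_nonneg_left a1 hpl.le
          _ ≤ 4 := by
              rw [mul_div_cancel₀ _ hpl.ne']
              norm_num
    · intro ω ω' hω hω' hW
      have e := Prod.ext_iff.mp hW
      have e1 : z ω = z ω' := e.1
      have e2 := Prod.ext_iff.mp e.2
      have e3 : Fam.pt F ω = Fam.pt F ω' := e2.2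
      have e4 := Prod.ext_iff.mp e3
      refine ⟨e4.1, e4.2, e2.1, ?_, ?_, ?_⟩
      · change Function.update (z ω) i₀ 1 = Function.update (z ω') i₀ 1
        rw [e1]
      · change Function.update (f (Fam.pt F ω)) i₀ 1 = Function.update (f (Fam.pt F ω')) i₀ 1
        rw [e3]
      · change Function.update (n (Fam.pt F ω)) i₀ 0 = Function.update (n (Fam.pt F ω')) i₀ 0
        rw [e3]
  -- the digits
  have hdig : CH Q (fun ω => ⌊(2 : ℝ) ^ (q + X) * F.d ω i₀⌋)
      (fun ω => (F.qlb w q l i₀ z ω, (z ω, B ω))) ≤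
      CH Q (fun ω => ⌊(2 : ℝ) ^ X * F.gd q l i₀ z ω i₀⌋) (F.qlb w q l i₀ z) := by
    have k1 : CH Q (fun ω => ⌊(2 : ℝ) ^ (q + X) * F.d ω i₀⌋)
        (fun ω => (F.qlb w q l i₀ z ω, (z ω, B ω))) ≤
        CH Q (fun ω => ⌊(2 : ℝ) ^ X * F.gd q l i₀ z ω i₀⌋)
          (fun ω => (F.qlb w q l i₀ z ω, (z ω, B ω))) := by
      refine CH_mono_left h0 fun ω ω' _ _ h => ?_
      have e := Prod.ext_iff.mp h
      have e1 : ⌊(2 : ℝ) ^ X * F.gd q l i₀ z ω i₀⌋ = ⌊(2 : ℝ) ^ X * F.gd q l i₀ z ω' i₀⌋ := e.1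
      have e2 : F.qlb w q l i₀ z ω = F.qlb w q l i₀ z ω' := (Prod.ext_iff.mp e.2).1
      have e3 : F.gvl q l i₀ z ω = F.gvl q l i₀ z ω' := (Lab.glb_ext e2).2.2.2.1
      have k2 : ∀ ω'', ⌊(2 : ℝ) ^ (q + X) * F.d ω'' i₀⌋ =
          ⌊(2 : ℝ) ^ X * F.gd q l i₀ z ω'' i₀⌋ + 2 ^ X * F.gvl q l i₀ z ω'' i₀ := by
        intro ω''
        have k3 : ⌊(2 : ℝ) ^ X * F.gd q l i₀ z ω'' i₀⌋ =
            F.gvl (q + X) l i₀ z ω'' i₀ - 2 ^ X * F.gvl q l i₀ z ω'' i₀ :=
          Lab.fl_gd F q l X i₀ z ω'' i₀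
        have k4 : F.gvl (q + X) l i₀ z ω'' i₀ = ⌊(2 : ℝ) ^ (q + X) * F.d ω'' i₀⌋ := by
          change ⌊(2 : ℝ) ^ (q + X) * pco l i₀ (z ω'') (F.d ω'') i₀⌋ = _
          unfold pco
          rw [if_pos rfl]
        rw [k3, k4]
        ring
      change ⌊(2 : ℝ) ^ (q + X) * F.d ω i₀⌋ = ⌊(2 : ℝ) ^ (q + X) * F.d ω' i₀⌋
      rw [k2, k2, e1, e3]
    refine k1.trans (CH_mono_cond h0 fun ω ω' _ _ h => ?_)
    exact (Prod.ext_iff.mp h).1
  have h5 := CH_le_add h0 (fun ω => ⌊(2 : ℝ) ^ (q + X) * F.d ω i₀⌋) z B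
  have h6 := CH_le_add h0 (fun ω => ⌊(2 : ℝ) ^ (q + X) * F.d ω i₀⌋) (F.qlb w q l i₀ z)
    (fun ω => (z ω, B ω))
  linarith

end Pool.K2S
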