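import Pool.Agent.H9.K2.Stmts
import Pool.Agent.H44.KA.Tim

/-!
# Side information and visible labels
-/

set_option autoImplicit false

namespace Pool.KA

open Finset Real
open Pool.Agent.H49.Ent Pool.Agent.H32.Dense Pool.STK

/-- Symmetry of the conditional mutual information. -/
lemma ap1_sym {Ω S U V : Type} [Fintype Ω] {p : Ω → ℝ} (hp : ∀ ω, 0 ≤ p ω)
    (X : Ω → S) (Y : Ω → U) (W : Ω → V) :
    CH p X W - CH p X (fun ω => (Y ω, W ω)) = CH p Y W - CH p Y (fun ω => (X ω, W ω)) := by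
  have h1 := CH_chain hp X Y W
  have h2 := CH_chain hp Y X W
  have h3 : CH p (fun ω => (X ω, Y ω)) W = CH p (fun ω => (Y ω, X ω)) W := by
    refine CH_congr hp ?_ ?_ (fun _ _ _ _ h => h) (fun _ _ _ _ h => h)
    · intro ω ω' _ _ h
      simp only [Prod.mk.injEq] at h ⊢
      exact ⟨h.1.2, h.1.1⟩
    · intro ω ω' _ _ h
      simp only [Prod.mk.injEq] at h ⊢
      exact ⟨h.1.2, h.1.1⟩
  linarith

theorem ap1_thm : AP1Stmt := by
  intro m J F a R η κ z ha hF hz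
  have hp := F.isLaw.nonneg
  have e1 : (F.cnd z).Ga a = CH F.p (F.D J) (fun ω => (z ω, F.Z ω)) -
      a * CH F.p (F.X J) (fun ω => (F.T ω, (z ω, F.Z ω))) := rfl
  have e2 : CH F.p (F.X J) (fun ω => (F.T ω, (z ω, F.Z ω))) =
      CH F.p (F.X J) (fun ω => (z ω, F.W ω)) := by
    refine CH_congr hp ?_ ?_ ?_ ?_
    · intro ω ω' _ _ h
      exact (Prod.ext_iff.mp h).1
    · intro ω ω' _ _ h
      exact (Prod.ext_iff.mp h).1
    · intro ω ω' _ _ h
      simp only [Prod.mk.injEq] at h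
      show (z ω, (F.T ω, F.Z ω)) = (z ω', (F.T ω', F.Z ω'))
      rw [h.1, h.2.1, h.2.2]
    · intro ω ω' _ _ h
      have h' : (z ω, (F.T ω, F.Z ω)) = (z ω', (F.T ω', F.Z ω')) := h
      simp only [Prod.mk.injEq] at h'
      show (F.T ω, (z ω, F.Z ω)) = (F.T ω', (z ω', F.Z ω'))
      rw [h'.1, h'.2.1, h'.2.2]
  have e3 : F.Ga a = CH F.p (F.D J) F.Z - a * CH F.p (F.X J) F.W := rfl
  have s1 := ap1_sym hp (F.D J) z F.Z
  have s2 := ap1_sym hp (F.X J) z F.W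
  have h1 : a * (CH F.p z F.W - CH F.p z (fun ω => (F.X J ω, F.W ω))) ≤
      (CH F.p z F.Z - CH F.p z (fun ω => (F.D J ω, F.Z ω))) + 2 * η * J := by
    rw [← s1, ← s2]
    rw [e1, e2] at hz
    rw [e3] at hF
    linarith
  refine ⟨h1, ?_⟩
  intro e e' he he'
  -- the time says little on `z`
  have t1 := tim_le F.isLaw F.T J F.tim F.Z
  have t2 := ap1_sym hp z F.T F.Z
  have t3 := ap1_sym hp z F.T (fun ω => (F.l ω, F.Z ω))
  have t4 : CH F.p F.T (fun ω => (z ω, (F.l ω, F.Z ω))) ≤ CH F.p F.T (fun ω => (z ω, F.Z ω)) := by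
    refine CH_mono_cond hp ?_
    intro ω ω' _ _ h
    simp only [Prod.mk.injEq] at h ⊢
    exact ⟨h.1, h.2.2⟩
  have t5 : (J : ℝ) * Real.log 2 - e ≤ CH F.p F.T (fun ω => (F.l ω, F.Z ω)) := he
  have t6 : CH F.p z F.W = CH F.p z (fun ω => (F.T ω, F.Z ω)) := rfl
  have t7 := CH_nonneg hp z (fun ω => (F.D J ω, F.Z ω))
  have t8 : CH F.p z F.Z - (e + e') ≤ CH F.p z F.W := by
    rw [t6]
    linarith
  have t9 := mul_le_mul_of_nonneg_left t8 (show (0 : ℝ) ≤ a by linarith)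
  nlinarith

end Pool.KA
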