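import Pool.Agent.H7.KSAT.FTDStmts

/-!
# Fullness with total deficit

`tds_thm : TDSStmt` (time digits of disjoint windows), and fullness with total deficit in the
form `FTDGStmt` with one loss `γ i` for every transition; `FTDStmt` needs `0 ≤ γ` (for `N = 1`
the number `γ` is not constrained by the hypotheses), this is `ftd_nonneg`.
-/

set_option autoImplicit false

namespace Pool.KSAT

open Finset Real
open Pool.Agent.H49.Ent Pool.Agent.H32.Dense Pool.STK Pool.KA

variable {m J : ℕ}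

/-- The deficit of the first `n` time digits. -/
noncomputable def tdf (F : Fam m J) (n : ℕ) : ℝ :=
  n * Real.log 2 - CH F.p (F.T1 n) (fun ω => (F.l ω, F.Z ω))

lemma tdf_zero (F : Fam m J) : 0 ≤ tdf F 0 := by
  have h0 := F.isLaw.nonneg
  have h1 : CH F.p (F.T1 0) (fun ω => (F.l ω, F.Z ω)) = 0 := by
    refine CH_eq_zero h0 ?_
    intro ω ω' _ _ _
    have h : ∀ ω, F.T1 0 ω = 0 := by
      intro ω
      unfold Fam.T1
      rw [Nat.sub_zero]
      exact Nat.div_eq_of_lt (F.tim ω)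
    rw [h, h]
  unfold tdf
  rw [h1]
  simp

/-- One window. -/
lemma tdf_step (F : Fam m J) {w K : ℕ} (h : w + K ≤ J) :
    K * Real.log 2 - CH F.p (fun ω => (F.T1 (w + K) ω : ℤ)) (slam F w) ≤
      tdf F (w + K) - tdf F w := by
  have h0 := F.isLaw.nonneg
  have c2 := CH_le_add h0 (F.T1 (w + K)) (F.T1 w) (fun ω => (F.l ω, F.Z ω))
  have d3 : CH F.p (F.T1 (w + K)) (fun ω => (F.T1 w ω, (F.l ω, F.Z ω))) =
      CH F.p (fun ω => (F.T1 (w + K) ω : ℤ)) (slam F w) := by
    refine CH_congr h0 ?_ ?_ ?_ ?_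
    · intro ω ω' _ _ hh
      have := (Prod.ext_iff.mp hh).1
      simp only at this ⊢
      rw [this]
    · intro ω ω' _ _ hh
      have := (Prod.ext_iff.mp hh).1
      simp only at this ⊢
      exact_mod_cast this
    · intro ω ω' _ _ hh
      simp only [slam, Prod.mk.injEq] at hh ⊢
      tauto
    · intro ω ω' _ _ hh
      simp only [slam, Prod.mk.injEq] at hh ⊢
      tauto
  rw [d3] at c2
  unfold tdf
  push_cast
  linarith

/-- Time digits of a window given the previous ones: at most `K` bits. -/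
lemma slam_le (F : Fam m J) {w K : ℕ} (h : w + K ≤ J) :
    CH F.p (F.T1 (w + K)) (fun ω => (F.T1 w ω, (F.l ω, F.Z ω))) ≤ K * Real.log 2 := by
  have h0 := F.isLaw.nonneg
  refine (CH_le_card h0 F.isLaw.sum_one (F.T1 (w + K)) _
    (fun v => Finset.Ico (v.1 * 2 ^ K) ((v.1 + 1) * 2 ^ K)) ?_).trans ?_
  · intro ω _
    rw [T1_div F h, Finset.mem_Ico]
    constructor
    · exact Nat.div_mul_le_self _ _
    · rw [← Nat.div_lt_iff_lt_mul (by positivity)]
      exact Nat.lt_succ_self _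
  · refine le_of_eq ?_
    have : ∀ v : ℕ, (Finset.Ico (v * 2 ^ K) ((v + 1) * 2 ^ K)).card = 2 ^ K := by
      intro v
      rw [Nat.card_Ico, add_mul, one_mul, Nat.add_sub_cancel_left]
    simp only [this]
    push_cast
    rw [Ex_const F.isLaw.sum_one, Real.log_pow]

lemma tdf_mono (F : Fam m J) {n n' : ℕ} (h : n ≤ n') (h' : n' ≤ J) : tdf F n ≤ tdf F n' := by
  obtain ⟨K, rfl⟩ := Nat.exists_eq_add_of_le h
  have h0 := F.isLaw.nonneg
  have c2 := CH_le_add h0 (F.T1 (n + K)) (F.T1 n) (fun ω => (F.l ω, F.Z ω))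
  have c3 := slam_le F h'
  unfold tdf
  push_cast
  linarith

lemma tdf_last (F : Fam m J) {e : ℝ} (he : F.Tm e) : tdf F J ≤ e := by
  have h : F.T1 J = F.T := by
    funext ω
    unfold Fam.T1
    rw [Nat.sub_self, pow_zero, Nat.div_one]
  unfold tdf
  rw [h]
  unfold Fam.Tm at he
  linarith

theorem tds_thm : TDSStmt := by
  intro m J F N K w e he hw hw'
  have h1 : ∀ n, n < N → ∑ i ∈ range (n + 1), (K * Real.log 2 -
      CH F.p (fun ω => (F.T1 (w i + K) ω : ℤ)) (slam F (w i))) ≤ tdf F (w n + K) := by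
    intro n
    induction n with
    | zero =>
      intro hn
      rw [Finset.sum_range_one]
      have h2 := tdf_step F (hw 0 hn)
      have h3 := tdf_mono F (Nat.zero_le (w 0)) (by have := hw 0 hn; omega)
      have h4 := tdf_zero F
      linarith
    | succ n ih =>
      intro hn
      rw [Finset.sum_range_succ]
      have h2 := tdf_step F (hw (n + 1) hn)
      have h3 := tdf_mono F (hw' n hn) (by have := hw (n + 1) hn; omega)
      have h4 := ih (by omega)
      linarith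
  rcases Nat.eq_zero_or_pos N with hN | hN
  · subst hN
    rw [Finset.sum_range_zero]
    have h2 := tdf_mono F (Nat.zero_le J) le_rfl
    have h3 := tdf_zero F
    have h4 := tdf_last F he
    linarith
  · have h2 := h1 (N - 1) (by omega)
    rw [Nat.sub_add_cancel hN] at h2
    have h3 := tdf_mono F (hw (N - 1) (by omega)) le_rfl
    have h4 := tdf_last F he
    linarith

/-- The deficit of one window is nonnegative. -/
lemma tds_nonneg (F : Fam m J) {w K : ℕ} (h : w + K ≤ J) :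
    0 ≤ K * Real.log 2 - CH F.p (fun ω => (F.T1 (w + K) ω : ℤ)) (slam F w) := by
  have h0 := F.isLaw.nonneg
  have d3 : CH F.p (F.T1 (w + K)) (fun ω => (F.T1 w ω, (F.l ω, F.Z ω))) =
      CH F.p (fun ω => (F.T1 (w + K) ω : ℤ)) (slam F w) := by
    refine CH_congr h0 ?_ ?_ ?_ ?_
    · intro ω ω' _ _ hh
      have := (Prod.ext_iff.mp hh).1
      simp only at this ⊢
      rw [this]
    · intro ω ω' _ _ hh
      have := (Prod.ext_iff.mp hh).1
      simp only at this ⊢
      exact_mod_cast this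
    · intro ω ω' _ _ hh
      simp only [slam, Prod.mk.injEq] at hh ⊢
      tauto
    · intro ω ω' _ _ hh
      simp only [slam, Prod.mk.injEq] at hh ⊢
      tauto
  have := slam_le F h
  rw [d3] at this
  linarith

open Classical in
/-- **Fullness with total deficit**, one loss `γ i` for every transition `i → i + 1`. -/
def FTDGStmt : Prop :=
  ∀ m k : ℕ, ∃ C : ℝ, 0 ≤ C ∧ ∀ (J : ℕ) (F : Fam m J) (β Pt : Type) (b : ℕ → F.Ω → β)
    (pt : ℕ → F.Ω → Pt) (w : ℕ → ℕ) (N K a h : ℕ) (e ρ : ℝ) (γ : ℕ → ℝ),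
    F.Tm e → 0 < N → (∀ i, i < N → w i + K ≤ J) → (∀ i, i + 1 < N → w i + K ≤ w (i + 1)) →
    (∀ i, i < N → ∀ ω ω', 0 < F.p ω → 0 < F.p ω' → slam F (w i) ω = slam F (w i) ω' →
      b i ω = b i ω') →
    (∀ i, i < N → ∀ ω ω', 0 < F.p ω → 0 < F.p ω' → pt i ω = pt i ω' →
      F.T1 (w i + K) ω = F.T1 (w i + K) ω' ∧ F.X (w i + K) ω = F.X (w i + K) ω') →
    (∀ i, i + 1 < N →
      CH F.p (F.D K) (b (i + 1)) ≤ CH F.p (F.D K) (fun ω => (b i ω, pt i ω)) + γ i) →
    2 ≤ h → a + (h + 3) * (k + 1) + h ≤ K →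
    (∀ i, i < N → ∀ ω, 0 < F.p ω → ∀ (v : Fin m → ℝ) (B : Fin k → Fin m → ℝ),
      (∑ ω', if ∃ c : Fin k → ℝ, ∀ j, |F.d ω' j - v j - ∑ i, c i * B i j| ≤ 4 / 2 ^ h
        then cond F.p (fun ω => (b i ω, pt i ω)) (b i ω, pt i ω) ω' else 0) ≤ ρ) →
    N * ((k + 2) * (a * Real.log 2) * (1 - (k + 2) * ρ) - a * Real.log 2 - C) -
      (k + 2) * (e + CH F.p (F.D K) (b 0) + ∑ i ∈ range (N - 1), γ i) ≤
      ∑ i ∈ range N, CH F.p (F.X (w i + K))
        (fun ω => (F.T1 (w i + K) ω, F.X (w i + K - a) ω, b i ω))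

theorem ftdg_thm (hT : TDSStmt) (hS : SLPt1Stmt) : FTDGStmt := by
  intro m k
  obtain ⟨C, hC, hs⟩ := hS m k
  refine ⟨C, hC, ?_⟩
  intro J F β Pt b pt w N K a h e ρ γ he hN hw hw' hb hpt hγ hh haK hconc
  have h0 := F.isLaw.nonneg
  -- the deficits of the windows
  set ε : ℕ → ℝ := fun i => K * Real.log 2 -
    CH F.p (fun ω => (F.T1 (w i + K) ω : ℤ)) (slam F (w i)) with hε
  set I : ℕ → ℝ := fun i => CH F.p (F.D K) (b i) - CH F.p (F.D K) (fun ω => (b i ω, pt i ω))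
    with hI
  have h1 : ∀ i ∈ range N, (k + 2) * (a * Real.log 2) * (1 - (k + 2) * ρ) - a * Real.log 2 -
      (k + 2) * (ε i + I i) - C ≤ CH F.p (F.X (w i + K))
        (fun ω => (F.T1 (w i + K) ω, F.X (w i + K - a) ω, b i ω)) := by
    intro i hi
    rw [Finset.mem_range] at hi
    have h2 := hs J F β Pt (b i) (pt i) (w i) K a h (ε i) ρ (hw i hi)
      (by rw [hε]; linarith) (hb i hi) (hpt i hi) hh haK (hconc i hi)
    exact h2
  have h2 := Finset.sum_le_sum h1
  have h3 : ∑ i ∈ range N, ε i ≤ e := hT m J F N K w e he hw hw'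
  -- telescoping
  have h4 : ∀ n, n < N → ∑ i ∈ range n, I i ≤
      CH F.p (F.D K) (b 0) - CH F.p (F.D K) (b n) + ∑ i ∈ range n, γ i := by
    intro n
    induction n with
    | zero => intro _; simp
    | succ n ih =>
      intro hn
      rw [Finset.sum_range_succ, Finset.sum_range_succ]
      have h5 := ih (by omega)
      have h6 := hγ n hn
      simp only [hI] at h5 ⊢
      linarith
  have h5 : ∑ i ∈ range N, I i ≤ CH F.p (F.D K) (b 0) + ∑ i ∈ range (N - 1), γ i := by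
    have h6 := h4 (N - 1) (by omega)
    have h7 : ∑ i ∈ range N, I i = ∑ i ∈ range (N - 1), I i + I (N - 1) := by
      rw [← Finset.sum_range_succ, Nat.sub_add_cancel hN]
    have h8 := CH_nonneg h0 (F.D K) (fun ω => (b (N - 1) ω, pt (N - 1) ω))
    rw [h7]
    have h9 : I (N - 1) = CH F.p (F.D K) (b (N - 1)) -
      CH F.p (F.D K) (fun ω => (b (N - 1) ω, pt (N - 1) ω)) := rfl
    rw [h9]
    linarith
  have h6 : ∑ i ∈ range N, ((k + 2) * (a * Real.log 2) * (1 - (k + 2) * ρ) - a * Real.log 2 -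
      (k + 2) * (ε i + I i) - C) = N * ((k + 2) * (a * Real.log 2) * (1 - (k + 2) * ρ) -
      a * Real.log 2 - C) - (k + 2) * (∑ i ∈ range N, ε i + ∑ i ∈ range N, I i) := by
    have e1 : ∀ i ∈ range N, ((k : ℝ) + 2) * (a * Real.log 2) * (1 - (k + 2) * ρ) -
        a * Real.log 2 - (k + 2) * (ε i + I i) - C =
        ((k + 2) * (a * Real.log 2) * (1 - (k + 2) * ρ) - a * Real.log 2 - C) -
        (k + 2) * (ε i + I i) := by
      intro i _
      ring
    rw [Finset.sum_congr rfl e1, Finset.sum_sub_distrib, Finset.sum_const, Finset.card_range,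
      nsmul_eq_mul, ← Finset.mul_sum, Finset.sum_add_distrib]
  rw [h6] at h2
  have h7 : ((k : ℝ) + 2) * (∑ i ∈ range N, ε i + ∑ i ∈ range N, I i) ≤
      (k + 2) * (e + CH F.p (F.D K) (b 0) + ∑ i ∈ range (N - 1), γ i) := by
    refine mul_le_mul_of_nonneg_left ?_ (by positivity)
    linarith
  linarith

/-- Fullness with total deficit, without hypotheses. -/
theorem ftdg : FTDGStmt := ftdg_thm tds_thm slPt1

open Classical in
/-- **Fullness with total deficit** with one bound `γ ≥ 0` for the losses. -/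
theorem ftd_nonneg : ∀ m k : ℕ, ∃ C : ℝ, 0 ≤ C ∧ ∀ (J : ℕ) (F : Fam m J) (β Pt : Type)
    (b : ℕ → F.Ω → β) (pt : ℕ → F.Ω → Pt) (w : ℕ → ℕ) (N K a h : ℕ) (e ρ γ : ℝ), 0 ≤ γ →
    F.Tm e → 0 < N → (∀ i, i < N → w i + K ≤ J) → (∀ i, i + 1 < N → w i + K ≤ w (i + 1)) →
    (∀ i, i < N → ∀ ω ω', 0 < F.p ω → 0 < F.p ω' → slam F (w i) ω = slam F (w i) ω' →
      b i ω = b i ω') →
    (∀ i, i < N → ∀ ω ω', 0 < F.p ω → 0 < F.p ω' → pt i ω = pt i ω' →
      F.T1 (w i + K) ω = F.T1 (w i + K) ω' ∧ F.X (w i + K) ω = F.X (w i + K) ω') →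
    (∀ i, i + 1 < N →
      CH F.p (F.D K) (b (i + 1)) ≤ CH F.p (F.D K) (fun ω => (b i ω, pt i ω)) + γ) →
    2 ≤ h → a + (h + 3) * (k + 1) + h ≤ K →
    (∀ i, i < N → ∀ ω, 0 < F.p ω → ∀ (v : Fin m → ℝ) (B : Fin k → Fin m → ℝ),
      (∑ ω', if ∃ c : Fin k → ℝ, ∀ j, |F.d ω' j - v j - ∑ i, c i * B i j| ≤ 4 / 2 ^ h
        then cond F.p (fun ω => (b i ω, pt i ω)) (b i ω, pt i ω) ω' else 0) ≤ ρ) →
    N * ((k + 2) * (a * Real.log 2) * (1 - (k + 2) * ρ) - a * Real.log 2 - C) -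
      (k + 2) * (e + CH F.p (F.D K) (b 0) + N * γ) ≤
      ∑ i ∈ range N, CH F.p (F.X (w i + K))
        (fun ω => (F.T1 (w i + K) ω, F.X (w i + K - a) ω, b i ω)) := by
  intro m k
  obtain ⟨C, hC, hs⟩ := ftdg m k
  refine ⟨C, hC, ?_⟩
  intro J F β Pt b pt w N K a h e ρ γ hγ0 he hN hw hw' hb hpt hγ hh haK hconc
  have h1 := hs J F β Pt b pt w N K a h e ρ (fun _ => γ) he hN hw hw' hb hpt hγ hh haK hconc
  rw [Finset.sum_const, Finset.card_range, nsmul_eq_mul] at h1
  have h2 : ((N - 1 : ℕ) : ℝ) * γ ≤ N * γ := by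
    refine mul_le_mul_of_nonneg_right ?_ hγ0
    exact_mod_cast Nat.sub_le N 1
  have h3 : ((k : ℝ) + 2) * (e + CH F.p (F.D K) (b 0) + ((N - 1 : ℕ) : ℝ) * γ) ≤
      (k + 2) * (e + CH F.p (F.D K) (b 0) + N * γ) := by
    refine mul_le_mul_of_nonneg_left ?_ (by positivity)
    linarith
  linarith

end Pool.KSAT
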