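import Pool.Agent.H44.K2.ACT1

/-!
# The set of the active scales

On the mesh, a positive proportion of the scales `q` below `q₁` is active at all scales `s` with
`q + s ≤ q₁` at once; the digits of the base velocity are then not frozen, and they have entropy
in the contexts.
-/

set_option autoImplicit false

namespace Pool.K2S

open Finset Real
open Pool.Agent.H49.Ent Pool.Agent.H32.Dense Pool.STK Pool.KA Pool.KSAT

/-- The base velocity as a vector with one coordinate. -/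
theorem CH_bv {m J : ℕ} (F : Fam m J) {p : F.Ω → ℝ} (hp : ∀ ω, 0 ≤ p ω) (i₀ : Fin m) (k : ℕ)
    {S : Type} (W : F.Ω → S) : CH p (fun ω => ⌊(2 : ℝ) ^ k * F.d ω i₀⌋) W =
      CH p (fun ω => fl k (fun _ : Fin 1 => F.d ω i₀)) W := by
  refine CH_congr hp ?_ ?_ (fun _ _ _ _ h => h) (fun _ _ _ _ h => h)
  · intro ω ω' _ _ h
    have e : ⌊(2 : ℝ) ^ k * F.d ω i₀⌋ = ⌊(2 : ℝ) ^ k * F.d ω' i₀⌋ := (Prod.ext_iff.mp h).1
    funext _
    exact e
  · intro ω ω' _ _ h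
    exact congrFun (Prod.ext_iff.mp h).1 0

/-- The base velocity has at most `u` digits per row of the mesh. -/
theorem bv_step {m J : ℕ} (F : Fam m J) {p : F.Ω → ℝ} (hp : IsLaw p) (i₀ : Fin m) (k u : ℕ)
    {S : Type} (W : F.Ω → S) :
    0 ≤ CH p (fun ω => ⌊(2 : ℝ) ^ (k + u) * F.d ω i₀⌋) W -
      CH p (fun ω => ⌊(2 : ℝ) ^ k * F.d ω i₀⌋) W ∧
    CH p (fun ω => ⌊(2 : ℝ) ^ (k + u) * F.d ω i₀⌋) W -
      CH p (fun ω => ⌊(2 : ℝ) ^ k * F.d ω i₀⌋) W ≤ u * Real.log 2 := by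
  have h0 := hp.nonneg
  rw [CH_bv F h0, CH_bv F h0]
  constructor
  · have h1 : CH p (fun ω => fl k (fun _ : Fin 1 => F.d ω i₀)) W ≤
        CH p (fun ω => fl (k + u) (fun _ : Fin 1 => F.d ω i₀)) W := by
      refine CH_mono_left h0 fun ω ω' _ _ h => ?_
      exact Pool.STK.B58.fl_fine (Nat.le_add_right k u) (Prod.ext_iff.mp h).1
    linarith
  · have h1 := TRC.CH_floor hp (fun ω (_ : Fin 1) => F.d ω i₀) W k u
    have h2 := CH_le_add h0 (fun ω => fl (k + u) (fun _ : Fin 1 => F.d ω i₀))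
      (fun ω => fl k (fun _ : Fin 1 => F.d ω i₀)) W
    rw [Nat.cast_one, one_mul] at h1
    linarith

/-- The integer part of the base velocity. -/
theorem bv_zero {m J : ℕ} (F : Fam m J) {p : F.Ω → ℝ} (hp : IsLaw p) (i₀ : Fin m) {S : Type}
    (W : F.Ω → S) : CH p (fun ω => ⌊(2 : ℝ) ^ 0 * F.d ω i₀⌋) W ≤ Real.log 7 := by
  have h1 := Lab.CH_int_const (m := m) (F := F) hp (fun ω => ⌊(2 : ℝ) ^ 0 * F.d ω i₀⌋) W
    (c := 3) ?_
  · refine h1.trans (le_of_eq ?_)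
    norm_num
  · intro ω ω' _ _ _
    have h2 : |(2 : ℝ) ^ 0 * F.d ω i₀ - 2 ^ 0 * F.d ω' i₀| ≤ 2 := by
      rw [pow_zero, one_mul, one_mul]
      have a1 := abs_le.1 (F.dir ω i₀)
      have a2 := abs_le.1 (F.dir ω' i₀)
      rw [abs_le]
      constructor <;> linarith [a1.1, a1.2, a2.1, a2.2]
    exact (flo_le h2).trans (by norm_num)

/-- **(GACT)** The set of the active scales. -/
theorem gact : ∀ a R : ℝ, 1 < a → 0 < R → UBa 2 a R → ∃ c : ℝ, 0 < c ∧ ∃ C : ℝ,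
    ∀ x h₁ : ℝ, 0 < x → 0 < h₁ → ∀ N : ℕ, 0 < N →
    Claim (m := 2) a R (fun J F A => ∀ i₀ : Fin 2, Lb F i₀ ⌊h₁ * J⌋₊ A →
      ∀ q₁ : ℕ, q₁ ≤ N → x * N ≤ (q₁ : ℝ) → Ln F i₀ (q₁ * (J / N)) A →
      ∃ G : Finset ℕ, G ⊆ Finset.range q₁ ∧ c * q₁ ≤ (G.card : ℝ) ∧
        ∀ q ∈ G, ∀ s : ℕ, 1 ≤ s → q + s ≤ q₁ →
          c * ((s * (J / N) : ℕ) * Real.log 2) ≤
            CH (Pool.Agent.H49.Ent.cond F.p A True)
              (fun ω => ⌊(2 : ℝ) ^ ((q + s) * (J / N)) * F.d ω i₀⌋)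
              (fun ω => (⌊(2 : ℝ) ^ (q * (J / N)) * F.d ω i₀⌋, Fam.pt F ω)) ∧
          ¬ Frz F i₀ (q * (J / N)) ((q + s) * (J / N)) A ∧
          ∀ (f n : (Fin 2 → ℤ) × (ℕ × F.ζ) → Fin 2 → ℝ) (w l H : ℕ) (z : F.Ω → Fin 2 → ℝ),
            Frm F i₀ A H f n → Win F i₀ A f w l z → q * (J / N) + w + l ≤ J →
            q * (J / N) + l ≤ H →
            c * ((s * (J / N) : ℕ) * Real.log 2) - C ≤
              CH (Pool.Agent.H49.Ent.cond F.p A True)
                (fun ω => ⌊(2 : ℝ) ^ (s * (J / N)) * F.gd (q * (J / N)) l i₀ z ω i₀⌋)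
                (F.qlb w (q * (J / N)) l i₀ z)) := by
  classical
  intro a R ha hR hU
  have hl2 : 0 < Real.log 2 := Real.log_pos (by norm_num)
  have hl7 : 0 < Real.log 7 := Real.log_pos (by norm_num)
  obtain ⟨cR, hcR, hact⟩ := act1_thm a R ha hR hU
  obtain ⟨CF, hfrz⟩ := frz_thm
  obtain ⟨C4, h4⟩ := h4_thm
  obtain ⟨c', hc'⟩ : ∃ c', c' = cR / (2 * Real.log 2) := ⟨_, rfl⟩
  have hc'0 : 0 < c' := by rw [hc']; positivity
  refine ⟨c' / 2, by positivity, C4, fun x h₁ hx hh₁ N hN => ?_⟩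
  have hNr : (0 : ℝ) < N := by exact_mod_cast hN
  have h1 := hact (x / 2) h₁ (by positivity) hh₁
  obtain ⟨J₁, hJ₁⟩ := exists_nat_gt (2 * N * (2 * Real.log 7 / cR + |CF| / (c' / 2 * Real.log 2) + 1))
  refine Claim.mono (max J₁ (2 * N)) ?_ (h1.and (Claim.of one_pos 0 (Φ := fun J F A =>
    Fam.Stt F a R 1 A) (fun _ _ _ _ h => h)))
  rintro J hJ F A ⟨hA, hSt⟩ i₀ hLb q₁ hq₁ hxq hLn
  have hJ1 : J₁ ≤ J := (le_max_left _ _).trans hJ
  have hJ2 : 2 * N ≤ J := (le_max_right _ _).trans hJ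
  obtain ⟨u, hu⟩ : ∃ u, u = J / N := ⟨_, rfl⟩
  rw [← hu] at hLn ⊢
  have hu1 : N * u ≤ J := by rw [hu]; exact Nat.mul_div_le J N
  have hu2 : J < N * (u + 1) := by rw [hu]; exact Nat.lt_mul_div_succ J hN
  have hu2r : (J : ℝ) ≤ 2 * (N * u) := by
    have h1 : (J : ℝ) < N * (u + 1) := by exact_mod_cast hu2
    have h2 : 2 * (N : ℝ) ≤ J := by exact_mod_cast hJ2
    linarith
  have hubig : 2 * Real.log 7 / cR + |CF| / (c' / 2 * Real.log 2) + 1 < u := by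
    have h2 : 2 * N * (2 * Real.log 7 / cR + |CF| / (c' / 2 * Real.log 2) + 1) < (J : ℝ) :=
      hJ₁.trans_le (by exact_mod_cast hJ1)
    have h3 : 2 * N * (2 * Real.log 7 / cR + |CF| / (c' / 2 * Real.log 2) + 1) <
        2 * N * (u : ℝ) := by linarith
    exact lt_of_mul_lt_mul_left h3 (by positivity)
  have t1 : 0 < 2 * Real.log 7 / cR := by positivity
  have t2 : 0 ≤ |CF| / (c' / 2 * Real.log 2) := by positivity
  have hu0 : (0 : ℝ) < u := by linarith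
  have huF : |CF| < c' / 2 * Real.log 2 * u := by
    have h2 : |CF| / (c' / 2 * Real.log 2) < u := by linarith
    rw [div_lt_iff₀ (by positivity)] at h2
    linarith
  have hu7 : 2 * Real.log 7 < cR * u := by
    have h2 : 2 * Real.log 7 / cR < u := by linarith
    rw [div_lt_iff₀ hcR] at h2
    linarith
  -- the law
  obtain ⟨hlaw, -, -, -⟩ := hSt.res ha.le zero_le_one
  have hp0 := hlaw.nonneg
  set Q := Pool.Agent.H49.Ent.cond F.p A True with hQ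
  obtain ⟨g, hg⟩ : ∃ g : ℕ → ℝ, g = fun s => CH Q (fun ω => ⌊(2 : ℝ) ^ (s * u) * F.d ω i₀⌋)
    (Fam.pt F) := ⟨_, rfl⟩
  have hgs : ∀ s, g s = CH Q (fun ω => ⌊(2 : ℝ) ^ (s * u) * F.d ω i₀⌋) (Fam.pt F) :=
    fun s => by rw [hg]
  have hUL : 0 < (u : ℝ) * Real.log 2 := by positivity
  -- the lower bound
  have hq₁r : (q₁ : ℝ) ≤ N := by exact_mod_cast hq₁
  have hq₁0 : (1 : ℝ) ≤ q₁ := by
    have h2 : (0 : ℝ) < q₁ := lt_of_lt_of_le (by positivity) hxq
    have h3 : 0 < q₁ := by exact_mod_cast h2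
    exact_mod_cast h3
  have hgq : cR * ((q₁ * u : ℕ) : ℝ) ≤ g q₁ := by
    rw [hgs]
    refine hA i₀ hLb (q₁ * u) ((Nat.mul_le_mul_right u hq₁).trans hu1) ?_ hLn
    push_cast
    calc x / 2 * (J : ℝ) ≤ x / 2 * (2 * (N * u)) :=
          mul_le_mul_of_nonneg_left hu2r (by positivity)
      _ = x * N * u := by ring
      _ ≤ q₁ * u := mul_le_mul_of_nonneg_right hxq hu0.le
  have hg0 : g 0 ≤ Real.log 7 := by
    rw [hgs, Nat.zero_mul]
    exact bv_zero F hlaw i₀ (Fam.pt F)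
  have hstep : ∀ q, 0 ≤ g (q + 1) - g q ∧ g (q + 1) - g q ≤ u * Real.log 2 := by
    intro q
    rw [hgs, hgs]
    have e : (q + 1) * u = q * u + u := by ring
    rw [e]
    exact bv_step F hlaw i₀ (q * u) u (Fam.pt F)
  have hsel := actsel_thm q₁ c' (fun s => g s / (u * Real.log 2)) hc'0 (fun q _ => by
      obtain ⟨h2, h3⟩ := hstep q
      rw [← sub_div]
      constructor
      · exact div_nonneg h2 hUL.le
      · rw [div_le_one hUL]
        exact h3) (by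
      rw [← sub_div, le_div_iff₀ hUL]
      have e1 : c' * q₁ * (u * Real.log 2) = cR / 2 * (q₁ * u) := by
        rw [hc']
        field_simp
      rw [e1]
      push_cast at hgq
      have h5 : cR * u ≤ cR * (q₁ * u) := by
        refine mul_le_mul_of_nonneg_left ?_ hcR.le
        nlinarith
      linarith)
  refine ⟨(Finset.range q₁).filter fun q => ∀ s, q + s ≤ q₁ →
    c' / 2 * s ≤ g (q + s) / (u * Real.log 2) - g q / (u * Real.log 2),
    Finset.filter_subset _ _, hsel, ?_⟩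
  intro q hq s hs1 hqs
  rw [Finset.mem_filter] at hq
  have h5 := hq.2 s hqs
  rw [← sub_div, le_div_iff₀ hUL, hgs, hgs] at h5
  have h6 := CH_le_add hp0 (fun ω => ⌊(2 : ℝ) ^ ((q + s) * u) * F.d ω i₀⌋)
    (fun ω => ⌊(2 : ℝ) ^ (q * u) * F.d ω i₀⌋) (Fam.pt F)
  have hmain : c' / 2 * ((s * u : ℕ) * Real.log 2) ≤
      CH Q (fun ω => ⌊(2 : ℝ) ^ ((q + s) * u) * F.d ω i₀⌋)
        (fun ω => (⌊(2 : ℝ) ^ (q * u) * F.d ω i₀⌋, Fam.pt F ω)) := by
    have e1 : c' / 2 * ((s * u : ℕ) * Real.log 2) = c' / 2 * s * (u * Real.log 2) := by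
      push_cast
      ring
    rw [e1]
    linarith
  have hsr : (1 : ℝ) ≤ s := by exact_mod_cast hs1
  refine ⟨hmain, fun hF => ?_, fun f n w l H z hFr hWi hJl hH => ?_⟩
  · have h7 := hfrz J F i₀ A (q * u) ((q + s) * u) hlaw hF
    have h8 : c' / 2 * Real.log 2 * u ≤ c' / 2 * ((s * u : ℕ) * Real.log 2) := by
      push_cast
      have h9 : (u : ℝ) ≤ s * u := by nlinarith
      calc c' / 2 * Real.log 2 * u ≤ c' / 2 * Real.log 2 * (s * u) :=
            mul_le_mul_of_nonneg_left h9 (by positivity)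
        _ = _ := by ring
    have h9 := le_abs_self CF
    linarith
  · have h7 := h4 J F i₀ A f n w (q * u) l (s * u) H z hlaw hFr hWi hJl hH
    have e1 : q * u + s * u = (q + s) * u := by ring
    rw [e1] at h7
    linarith

end Pool.K2S
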